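import Pool.Agent.Helper91.BP.Deg

/-! Chains of separated sites and the base estimate. -/

namespace Pool.Agent.Helper91.BP
open Finset Classical

set_option linter.unusedSectionVars false
variable {d n : ℕ}

/-- sites adjacent to `x` or sharing a neighbour with `x` -/
noncomputable def Rnb (x : Grid d n) : Finset (Grid d n) := nbrs x ∪ (nbrs x).biUnion nbrs

theorem mem_Rnb {x y : Grid d n} : y ∈ Rnb x ↔ Adj x y ∨ ∃ z, Adj x z ∧ Adj z y := by
  unfold Rnb
  rw [Finset.mem_union, Finset.mem_biUnion, mem_nbrs]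
  constructor
  · rintro (h | ⟨z, hz, hy⟩)
    · exact Or.inl h
    · exact Or.inr ⟨z, mem_nbrs.1 hz, mem_nbrs.1 hy⟩
  · rintro (h | ⟨z, hz, hy⟩)
    · exact Or.inl h
    · exact Or.inr ⟨z, mem_nbrs.2 hz, mem_nbrs.2 hy⟩

theorem card_Rnb (hd : 1 ≤ d) (x : Grid d n) : (Rnb x).card ≤ 6 * d ^ 2 := by
  unfold Rnb
  have h1 := Finset.card_union_le (nbrs x) ((nbrs x).biUnion nbrs)
  have h2 : ((nbrs x).biUnion nbrs).card ≤ (nbrs x).card * (2 * d) :=
    Finset.card_biUnion_le_card_mul _ _ _ (fun y _ => card_nbrs_le y)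
  have h3 := card_nbrs_le x
  have h4 : (nbrs x).card * (2 * d) ≤ (2 * d) * (2 * d) := Nat.mul_le_mul_right _ h3
  nlinarith

/-- two steps -/
noncomputable def R2 (x : Grid d n) : Finset (Grid d n) := (Rnb x).biUnion Rnb

theorem card_R2 (hd : 1 ≤ d) (x : Grid d n) : (R2 x).card ≤ 36 * d ^ 4 := by
  unfold R2
  have h2 : ((Rnb x).biUnion Rnb).card ≤ (Rnb x).card * (6 * d ^ 2) :=
    Finset.card_biUnion_le_card_mul _ _ _ (fun y _ => card_Rnb hd y)
  have h4 : (Rnb x).card * (6 * d ^ 2) ≤ (6 * d ^ 2) * (6 * d ^ 2) :=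
    Nat.mul_le_mul_right _ (card_Rnb hd x)
  calc _ ≤ _ := h2
    _ ≤ _ := h4
    _ = _ := by ring

/-- chains -/
noncomputable def chains (L : Finset (Grid d n)) : ℕ → Finset (Grid d n × Finset (Grid d n))
  | 0 => L.image (fun y => (y, {y}))
  | k + 1 => (chains L k).biUnion (fun q => (R2 q.1).image (fun y => (y, insert y q.2)))

theorem card_chains (hd : 1 ≤ d) (L : Finset (Grid d n)) (k : ℕ) :
    (chains L k).card ≤ L.card * (36 * d ^ 4) ^ k := by
  induction k with
  | zero =>
    simp only [chains, pow_zero, mul_one]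
    exact Finset.card_image_le
  | succ k ih =>
    simp only [chains]
    have h2 : ((chains L k).biUnion
        (fun q => (R2 q.1).image (fun y => (y, insert y q.2)))).card
        ≤ (chains L k).card * (36 * d ^ 4) :=
      Finset.card_biUnion_le_card_mul _ _ _
        (fun q _ => le_trans Finset.card_image_le (card_R2 hd q.1))
    calc _ ≤ _ := h2
      _ ≤ (L.card * (36 * d ^ 4) ^ k) * (36 * d ^ 4) := Nat.mul_le_mul_right _ ih
      _ = _ := by ring

theorem chains_mono {L L' : Finset (Grid d n)} (h : L ⊆ L') (k : ℕ) :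
    chains L k ⊆ chains L' k := by
  induction k with
  | zero =>
    simp only [chains]
    exact Finset.image_subset_image h
  | succ k ih =>
    simp only [chains]
    exact Finset.biUnion_subset_biUnion_of_subset_left _ ih

/-- levels -/
noncomputable def lev (C : Finset (Grid d n)) (u : Grid d n) : ℕ → Finset (Grid d n)
  | 0 => {u}
  | i + 1 => lev C u i ∪ C.filter (fun y => ∃ z ∈ lev C u i, y ∈ Rnb z)

theorem lev_sub {C : Finset (Grid d n)} {u : Grid d n} (hu : u ∈ C) (i : ℕ) :
    lev C u i ⊆ C := by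
  induction i with
  | zero =>
    simp only [lev]
    exact Finset.singleton_subset_iff.2 hu
  | succ i ih =>
    simp only [lev]
    exact Finset.union_subset ih (Finset.filter_subset _ _)

theorem lev_succ {C : Finset (Grid d n)} {u : Grid d n} (i : ℕ) :
    lev C u i ⊆ lev C u (i + 1) := by
  simp only [lev]
  exact Finset.subset_union_left

theorem lev_mono {C : Finset (Grid d n)} {u : Grid d n} {i j : ℕ} (h : i ≤ j) :
    lev C u i ⊆ lev C u j := by
  induction j, h using Nat.le_induction with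
  | base => exact Finset.Subset.refl _
  | succ j _ ih => exact Finset.Subset.trans ih (lev_succ j)

theorem mem_lev_succ {C : Finset (Grid d n)} {u : Grid d n} {i : ℕ} {y z : Grid d n}
    (hy : y ∈ C) (hz : z ∈ lev C u i) (h : y ∈ Rnb z) : y ∈ lev C u (i + 1) := by
  simp only [lev]
  apply Finset.mem_union_right
  rw [Finset.mem_filter]
  exact ⟨hy, z, hz, h⟩

theorem lev_pred {C : Finset (Grid d n)} {u : Grid d n} {i : ℕ} {y : Grid d n}
    (hy : y ∈ lev C u (i + 1)) (hy' : y ∉ lev C u i) : ∃ z ∈ lev C u i, y ∈ Rnb z := by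
  simp only [lev] at hy
  rcases Finset.mem_union.1 hy with h | h
  · exact absurd h hy'
  · exact (Finset.mem_filter.1 h).2

theorem Rnb_coord {x y : Grid d n} (h : y ∈ Rnb x) (e : Fin d) : (y e : ℕ) ≤ (x e : ℕ) + 2 := by
  rcases mem_Rnb.1 h with h | ⟨z, h1, h2⟩
  · have := h.coord_le e
    omega
  · have a1 := h1.coord_le e
    have a2 := h2.coord_le e
    omega

theorem lev_coord {C : Finset (Grid d n)} {u : Grid d n} (e : Fin d) (i : ℕ) :
    ∀ y ∈ lev C u i, (y e : ℕ) ≤ (u e : ℕ) + 2 * i := by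
  induction i with
  | zero =>
    intro y hy
    simp only [lev, Finset.mem_singleton] at hy
    rw [hy]; omega
  | succ i ih =>
    intro y hy
    simp only [lev] at hy
    rcases Finset.mem_union.1 hy with h | h
    · have := ih y h
      omega
    · obtain ⟨_, z, hz, hyz⟩ := Finset.mem_filter.1 h
      have a1 := ih z hz
      have a2 := Rnb_coord hyz e
      omega

theorem conn_lev {C : Finset (Grid d n)} {u v : Grid d n} (h : Conn C u v) :
    ∃ i, v ∈ lev C u i := by
  obtain ⟨_, h2⟩ := h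
  induction h2 with
  | refl => exact ⟨0, by simp [lev]⟩
  | tail _ h4 ih =>
    obtain ⟨i, hi⟩ := ih
    exact ⟨i + 1, mem_lev_succ h4.2.2 hi (mem_Rnb.2 (Or.inl h4.1))⟩

theorem lev_stab {C : Finset (Grid d n)} {u : Grid d n} {i : ℕ}
    (h : lev C u (i + 1) = lev C u i) (j : ℕ) (hj : i ≤ j) : lev C u j = lev C u i := by
  induction j, hj using Nat.le_induction with
  | base => rfl
  | succ j _ ih =>
    have h1 : lev C u (j + 1) = lev C u j ∪ C.filter (fun y => ∃ z ∈ lev C u j, y ∈ Rnb z) := rfl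
    have h2 : lev C u (i + 1) = lev C u i ∪ C.filter (fun y => ∃ z ∈ lev C u i, y ∈ Rnb z) := rfl
    rw [h1, ih, ← h2, h]

/-- separated sets -/
def Sep (k : ℕ) (Y : Finset (Grid d n)) : Prop :=
  Y.card = k + 1 ∧ ∀ z, (nbrs z ∩ Y).card ≤ 1

theorem chain_level {C : Finset (Grid d n)} {u : Grid d n} (hu : u ∈ C) (k : ℕ) :
    ∀ y ∈ lev C u (2 * k), (k = 0 ∨ y ∉ lev C u (2 * k - 1)) →
      ∃ Y : Finset (Grid d n), (y, Y) ∈ chains C k ∧ Y ⊆ lev C u (2 * k) ∧ Sep k Y := by
  induction k with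
  | zero =>
    intro y hy _
    have hy' : y = u := by simpa [lev] using hy
    subst hy'
    refine ⟨{y}, ?_, ?_, ?_, ?_⟩
    · simp only [chains]
      exact Finset.mem_image.2 ⟨y, hu, rfl⟩
    · exact Finset.singleton_subset_iff.2 hy
    · simp
    · intro z
      exact le_trans (Finset.card_le_card Finset.inter_subset_right) (by simp)
  | succ k ih =>
    intro y hy hy'
    have hyn : y ∉ lev C u (2 * k + 1) := by
      rcases hy' with h | h
      · omega
      · exact h
    have hy2 : y ∈ lev C u ((2 * k + 1) + 1) := hy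
    obtain ⟨z, hz, hyz⟩ := lev_pred hy2 hyn
    have hyC : y ∈ C := lev_sub hu _ hy
    have hzn : z ∉ lev C u (2 * k) := fun h => hyn (mem_lev_succ hyC h hyz)
    obtain ⟨y', hy1, hzy'⟩ := lev_pred hz hzn
    have hzC : z ∈ C := lev_sub hu _ hz
    have hy'n : k = 0 ∨ y' ∉ lev C u (2 * k - 1) := by
      rcases Nat.eq_zero_or_pos k with h0 | h0
      · exact Or.inl h0
      · right
        intro h
        apply hzn
        have := mem_lev_succ hzC h hzy'
        rw [show 2 * k - 1 + 1 = 2 * k by omega] at this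
        exact this
    obtain ⟨Y, hY1, hY2, hY3, hY4⟩ := ih y' hy1 hy'n
    have hyY : y ∉ Y := fun h => hyn (lev_mono (by omega) (hY2 h))
    refine ⟨insert y Y, ?_, ?_, ?_, ?_⟩
    · simp only [chains]
      rw [Finset.mem_biUnion]
      refine ⟨(y', Y), hY1, ?_⟩
      rw [Finset.mem_image]
      refine ⟨y, ?_, rfl⟩
      unfold R2
      exact Finset.mem_biUnion.2 ⟨z, hzy', hyz⟩
    · intro x hx
      rcases Finset.mem_insert.1 hx with h | h
      · rw [h]; exact hy
      · exact lev_mono (by omega) (hY2 h)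
    · rw [Finset.card_insert_of_notMem hyY, hY3]
    · intro x
      by_cases hxy : Adj x y
      · have : nbrs x ∩ insert y Y ⊆ {y} := by
          intro w hw
          rw [Finset.mem_inter, Finset.mem_insert, mem_nbrs] at hw
          rw [Finset.mem_singleton]
          rcases hw.2 with h | h
          · exact h
          · exfalso
            apply hyn
            apply mem_lev_succ hyC (hY2 h)
            exact mem_Rnb.2 (Or.inr ⟨x, hw.1.symm, hxy⟩)
        exact le_trans (Finset.card_le_card this) (by simp)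
      · have : nbrs x ∩ insert y Y ⊆ nbrs x ∩ Y := by
          intro w hw
          rw [Finset.mem_inter, Finset.mem_insert, mem_nbrs] at hw
          rw [Finset.mem_inter, mem_nbrs]
          refine ⟨hw.1, ?_⟩
          rcases hw.2 with h | h
          · exfalso
            apply hxy
            rw [← h]
            exact hw.1
          · exact h
        exact le_trans (Finset.card_le_card this) (hY4 x)

theorem ext_chain {C : Finset (Grid d n)} {k : ℕ} (hk : 1 ≤ k) (h : Ext C (4 * k)) :
    ∃ q ∈ chains C k, q.2 ⊆ C ∧ Sep k q.2 := by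
  obtain ⟨e, u, v, h1, h2⟩ := h
  have hu := h1.left
  obtain ⟨i0, hi0⟩ := conn_lev h1
  have hne : lev C u (2 * k - 1 + 1) ≠ lev C u (2 * k - 1) := by
    intro hst
    have hv : v ∈ lev C u (2 * k - 1) := by
      rcases Nat.lt_or_ge i0 (2 * k - 1) with h | h
      · exact lev_mono h.le hi0
      · rw [← lev_stab hst i0 h]; exact hi0
    have := lev_coord e _ v hv
    omega
  obtain ⟨y, hy1, hy2⟩ : ∃ y ∈ lev C u (2 * k - 1 + 1), y ∉ lev C u (2 * k - 1) := by
    by_contra hcon
    push Not at hcon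
    exact hne (Finset.Subset.antisymm hcon (lev_succ _))
  rw [show 2 * k - 1 + 1 = 2 * k by omega] at hy1
  obtain ⟨Y, hY1, hY2, hY3⟩ := chain_level hu k y hy1 (Or.inr hy2)
  exact ⟨(y, Y), hY1, Finset.Subset.trans hY2 (lev_sub hu _), hY3⟩

/-- the exponential rate -/
noncomputable def rho (d t : ℕ) : ℝ := Real.exp (1 / 5 - (t : ℝ) / 5 + 13 / 100 * (d : ℝ))

theorem rho_pos (d t : ℕ) : 0 < rho d t := Real.exp_pos _

theorem B0_prob' {p : ℝ} (h0 : 0 ≤ p) (h1 : p ≤ 13 / 50) (Y : Finset (Grid d n)) (x0 : Grid d n)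
    (hY : ∀ z, z ≠ x0 → (nbrs z ∩ Y).card ≤ 2) (t : ℕ) :
    Pr p (fun A => Y ⊆ B0 t A) ≤ rho d t ^ Y.card := by
  have h := B0_prob h0 h1 Y x0 hY t
  unfold rho
  rw [← Real.exp_nat_mul]
  exact h

/-- many dense neighbours are unlikely -/
theorem many_prob {p : ℝ} (h0 : 0 ≤ p) (h1 : p ≤ 13 / 50) (L : Finset (Grid d n)) (s t : ℕ) :
    Pr p (fun A => ∃ x ∈ L, s ≤ (nbrs x ∩ B0 t A).card) ≤
      (L.card : ℝ) * (4 ^ d * rho d t ^ s) := by
  have hp1 : p ≤ 1 := by linarith
  refine le_trans (Pr_bUnion_le h0 hp1 L (fun x A => s ≤ (nbrs x ∩ B0 t A).card)) ?_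
  rw [← nsmul_eq_mul, ← Finset.sum_const]
  apply Finset.sum_le_sum
  intro x _
  have hsub : Pr p (fun A => s ≤ (nbrs x ∩ B0 t A).card) ≤
      Pr p (fun A => ∃ Y ∈ (nbrs x).powersetCard s, Y ⊆ B0 t A) := by
    apply Pr_mono h0 hp1
    intro A hA
    obtain ⟨Y, hY1, hY2⟩ := Finset.exists_subset_card_eq hA
    refine ⟨Y, ?_, Finset.Subset.trans hY1 Finset.inter_subset_right⟩
    rw [Finset.mem_powersetCard]
    exact ⟨Finset.Subset.trans hY1 Finset.inter_subset_left, hY2⟩
  refine le_trans hsub ?_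
  refine le_trans (Pr_bUnion_le h0 hp1 _ (fun Y A => Y ⊆ B0 t A)) ?_
  have hcard : ((nbrs x).powersetCard s).card ≤ 4 ^ d := by
    calc ((nbrs x).powersetCard s).card ≤ ((nbrs x).powerset).card := by
          apply Finset.card_le_card
          intro Y hY
          rw [Finset.mem_powersetCard] at hY
          exact Finset.mem_powerset.2 hY.1
      _ = 2 ^ (nbrs x).card := Finset.card_powerset _
      _ ≤ 2 ^ (2 * d) := Nat.pow_le_pow_right (by norm_num) (card_nbrs_le x)
      _ = 4 ^ d := by rw [pow_mul]; norm_num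
  calc ∑ Y ∈ (nbrs x).powersetCard s, Pr p (fun A => Y ⊆ B0 t A)
      ≤ ∑ Y ∈ (nbrs x).powersetCard s, rho d t ^ s := by
        apply Finset.sum_le_sum
        intro Y hY
        rw [Finset.mem_powersetCard] at hY
        have := B0_prob' h0 h1 Y x (by
          intro z hz
          refine le_trans (Finset.card_le_card ?_) (common_le hz)
          exact Finset.inter_subset_inter (Finset.Subset.refl _) hY.1) t
        rw [hY.2] at this
        exact this
    _ = (((nbrs x).powersetCard s).card : ℝ) * rho d t ^ s := by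
        rw [Finset.sum_const, nsmul_eq_mul]
    _ ≤ _ := by
        apply mul_le_mul_of_nonneg_right _ (pow_nonneg (rho_pos d t).le _)
        exact_mod_cast hcard

/-- long chains are unlikely -/
theorem chain_prob {p : ℝ} (h0 : 0 ≤ p) (h1 : p ≤ 13 / 50) (hd : 1 ≤ d)
    (L : Finset (Grid d n)) (k t : ℕ) :
    Pr p (fun A => ∃ q ∈ chains L k, q.2 ⊆ B0 t A ∧ Sep k q.2) ≤
      (L.card : ℝ) * ((36 * d ^ 4) ^ k * rho d t ^ (k + 1)) := by
  have hp1 : p ≤ 1 := by linarith
  refine le_trans (Pr_bUnion_le h0 hp1 _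
    (fun (q : Grid d n × Finset (Grid d n)) A => q.2 ⊆ B0 t A ∧ Sep k q.2)) ?_
  calc ∑ q ∈ chains L k, Pr p (fun A => q.2 ⊆ B0 t A ∧ Sep k q.2)
      ≤ ∑ q ∈ chains L k, rho d t ^ (k + 1) := by
        apply Finset.sum_le_sum
        intro q _
        by_cases hs : Sep k q.2
        · have h2 : Pr p (fun A => q.2 ⊆ B0 t A ∧ Sep k q.2) ≤ Pr p (fun A => q.2 ⊆ B0 t A) :=
            Pr_mono h0 hp1 (fun A h => h.1)
          refine le_trans h2 ?_
          have := B0_prob' h0 h1 q.2 q.1 (fun z _ => le_trans (hs.2 z) (by norm_num)) t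
          rw [hs.1] at this
          exact this
        · rw [Pr_false p (fun A h => hs h.2)]
          exact pow_nonneg (rho_pos d t).le _
    _ = ((chains L k).card : ℝ) * rho d t ^ (k + 1) := by
        rw [Finset.sum_const, nsmul_eq_mul]
    _ ≤ ((L.card * (36 * d ^ 4) ^ k : ℕ) : ℝ) * rho d t ^ (k + 1) := by
        apply mul_le_mul_of_nonneg_right _ (pow_nonneg (rho_pos d t).le _)
        exact_mod_cast card_chains hd L k
    _ = _ := by push_cast; ring

/-- base estimate -/
theorem base_prob {p : ℝ} (h0 : 0 ≤ p) (h1 : p ≤ 13 / 50) (hd : 1 ≤ d)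
    (L : Finset (Grid d n)) (s k t : ℕ) (hk : 1 ≤ k) :
    Pr p (fun A => Ext (cl L s (B0 t A)) (4 * k)) ≤
      (L.card : ℝ) * (4 ^ d * rho d t ^ s) +
      (L.card : ℝ) * ((36 * d ^ 4) ^ k * rho d t ^ (k + 1)) := by
  have hp1 : p ≤ 1 := by linarith
  have hsub : Pr p (fun A => Ext (cl L s (B0 t A)) (4 * k)) ≤
      Pr p (fun A => (∃ x ∈ L, s ≤ (nbrs x ∩ B0 t A).card) ∨
        (∃ q ∈ chains L k, q.2 ⊆ B0 t A ∧ Sep k q.2)) := by
    apply Pr_mono h0 hp1
    intro A hA
    by_cases hx : ∃ x ∈ L, s ≤ (nbrs x ∩ B0 t A).card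
    · exact Or.inl hx
    · right
      have hcl : cl L s (B0 t A) ⊆ B0 t A ∩ L := by
        apply cl_min
        · intro y hy hyB
          exact Finset.mem_inter.2 ⟨hyB, hy⟩
        · intro y hy hc
          exfalso
          apply hx
          refine ⟨y, hy, le_trans hc (Finset.card_le_card ?_)⟩
          exact Finset.inter_subset_inter (Finset.Subset.refl _) Finset.inter_subset_left
      obtain ⟨q, hq1, hq2, hq3⟩ := ext_chain hk (hA.mono hcl)
      exact ⟨q, chains_mono Finset.inter_subset_right k hq1,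
        Finset.Subset.trans hq2 Finset.inter_subset_left, hq3⟩
  refine le_trans hsub (le_trans (Pr_or_le h0 hp1 _ _) ?_)
  exact add_le_add (many_prob h0 h1 L s t) (chain_prob h0 h1 hd L k t)

end Pool.Agent.Helper91.BP
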