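import Pool.Agent.Helper91.BP.Def

/-! Closures in sub-boxes, connectivity, and the Aizenman-Lebowitz lemma. -/

namespace Pool.Agent.Helper91.BP
open Finset Classical

set_option linter.unusedSectionVars false
variable {d n : ℕ}

theorem Adj.symm {x y : Grid d n} (h : Adj x y) : Adj y x := by
  obtain ⟨e, h1, h2⟩ := h
  exact ⟨e, h1.symm, fun e' he' => (h2 e' he').symm⟩

theorem mem_nbrs {x y : Grid d n} : y ∈ nbrs x ↔ Adj x y := by
  unfold nbrs
  simp

theorem Adj.coord_le {x y : Grid d n} (h : Adj x y) (e : Fin d) :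
    (x e : ℕ) ≤ (y e : ℕ) + 1 ∧ (y e : ℕ) ≤ (x e : ℕ) + 1 := by
  obtain ⟨e0, h1, h2⟩ := h
  by_cases he : e = e0
  · subst he
    omega
  · rw [h2 e he]
    omega

theorem Adj.ne {x y : Grid d n} (h : Adj x y) : x ≠ y := by
  obtain ⟨e0, h1, h2⟩ := h
  intro hxy
  rw [hxy] at h1
  omega

/-- closure of `B` inside `L` at threshold `r` -/
noncomputable def cl (L : Finset (Grid d n)) (r : ℕ) (B : Finset (Grid d n)) :
    Finset (Grid d n) :=
  L.filter (fun x => ∀ F : Finset (Grid d n), (∀ y ∈ L, y ∈ B → y ∈ F) →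
    (∀ y ∈ L, r ≤ (nbrs y ∩ F).card → y ∈ F) → x ∈ F)

theorem cl_sub (L : Finset (Grid d n)) (r : ℕ) (B : Finset (Grid d n)) : cl L r B ⊆ L :=
  Finset.filter_subset _ _

theorem cl_base {L : Finset (Grid d n)} {r : ℕ} {B : Finset (Grid d n)} {x : Grid d n}
    (hx : x ∈ L) (hB : x ∈ B) : x ∈ cl L r B := by
  unfold cl
  rw [Finset.mem_filter]
  exact ⟨hx, fun F h1 _ => h1 x hx hB⟩

theorem cl_min {L : Finset (Grid d n)} {r : ℕ} {B F : Finset (Grid d n)}
    (h1 : ∀ y ∈ L, y ∈ B → y ∈ F) (h2 : ∀ y ∈ L, r ≤ (nbrs y ∩ F).card → y ∈ F) :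
    cl L r B ⊆ F := by
  intro x hx
  unfold cl at hx
  rw [Finset.mem_filter] at hx
  exact hx.2 F h1 h2

theorem cl_step {L : Finset (Grid d n)} {r : ℕ} {B : Finset (Grid d n)} {x : Grid d n}
    (hx : x ∈ L) (h : r ≤ (nbrs x ∩ cl L r B).card) : x ∈ cl L r B := by
  unfold cl
  rw [Finset.mem_filter]
  refine ⟨hx, fun F h1 h2 => h2 x hx (le_trans h ?_)⟩
  apply Finset.card_le_card
  exact Finset.inter_subset_inter (Finset.Subset.refl _) (cl_min h1 h2)

theorem cl_mono {L L' : Finset (Grid d n)} {r r' : ℕ} {B B' : Finset (Grid d n)}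
    (hL : L ⊆ L') (hr : r' ≤ r) (hB : ∀ x ∈ L, x ∈ B → x ∈ B') : cl L r B ⊆ cl L' r' B' := by
  apply cl_min
  · intro y hy hyB
    exact cl_base (hL hy) (hB y hy hyB)
  · intro y hy h
    exact cl_step (hL hy) (le_trans hr h)

theorem cl_dep (L : Finset (Grid d n)) (r : ℕ) (B : Finset (Grid d n)) :
    cl L r B = cl L r (B ∩ L) := by
  apply Finset.Subset.antisymm
  · apply cl_mono (Finset.Subset.refl _) le_rfl
    intro x hx hB
    exact Finset.mem_inter.2 ⟨hB, hx⟩
  · apply cl_mono (Finset.Subset.refl _) le_rfl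
    intro x _ hB
    exact (Finset.mem_inter.1 hB).1

/-- percolation and closure -/
theorem step_sub_cl (r : ℕ) (A : Finset (Grid d n)) (t : ℕ) :
    (step r)^[t] A ⊆ cl Finset.univ r A := by
  induction t with
  | zero =>
    intro x hx
    exact cl_base (Finset.mem_univ _) hx
  | succ t ih =>
    intro x hx
    rw [Function.iterate_succ_apply'] at hx
    unfold step at hx
    rcases Finset.mem_union.1 hx with h | h
    · exact ih h
    · rw [Finset.mem_filter] at h
      apply cl_step (Finset.mem_univ _)
      refine le_trans h.2 (Finset.card_le_card ?_)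
      exact Finset.inter_subset_inter (Finset.Subset.refl _) ih

theorem perc_iff (r : ℕ) (A : Finset (Grid d n)) :
    Percolates r A ↔ cl Finset.univ r A = Finset.univ := by
  constructor
  · intro h
    apply Finset.eq_univ_of_forall
    intro v
    obtain ⟨t, ht⟩ := h v
    exact step_sub_cl r A t ht
  · intro h v
    have hmono : ∀ s t, s ≤ t → (step r)^[s] A ⊆ (step r)^[t] A := by
      intro s t hst
      induction t, hst using Nat.le_induction with
      | base => exact Finset.Subset.refl _
      | succ t _ ih =>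
        refine Finset.Subset.trans ih ?_
        rw [Function.iterate_succ_apply']
        unfold step
        exact Finset.subset_union_left
    have hsub : cl Finset.univ r A ⊆ Finset.univ.filter (fun v => ∃ t, v ∈ (step r)^[t] A) := by
      apply cl_min
      · intro y _ hy
        rw [Finset.mem_filter]
        exact ⟨Finset.mem_univ _, 0, hy⟩
      · intro y _ hy
        rw [Finset.mem_filter]
        refine ⟨Finset.mem_univ _, ?_⟩
        have hex : ∃ t, (nbrs y ∩ Finset.univ.filter (fun v => ∃ t, v ∈ (step r)^[t] A))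
            ⊆ (step r)^[t] A := by
          have hch : ∀ z ∈ (nbrs y ∩ Finset.univ.filter (fun v => ∃ t, v ∈ (step r)^[t] A)),
              ∃ t, z ∈ (step r)^[t] A := by
            intro z hz
            exact (Finset.mem_filter.1 (Finset.mem_inter.1 hz).2).2
          choose! g hg using hch
          refine ⟨(nbrs y ∩ Finset.univ.filter (fun v => ∃ t, v ∈ (step r)^[t] A)).sup g, ?_⟩
          intro z hz
          exact hmono _ _ (Finset.le_sup (f := g) hz) (hg z hz)
        obtain ⟨t, ht⟩ := hex
        refine ⟨t + 1, ?_⟩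
        rw [Function.iterate_succ_apply']
        unfold step
        apply Finset.mem_union_right
        rw [Finset.mem_filter]
        refine ⟨Finset.mem_univ _, le_trans hy (Finset.card_le_card ?_)⟩
        intro z hz
        exact Finset.mem_inter.2 ⟨(Finset.mem_inter.1 hz).1, ht hz⟩
    have := hsub (by rw [h]; exact Finset.mem_univ v)
    exact (Finset.mem_filter.1 this).2

/-- connectivity inside `F` -/
def Conn (F : Finset (Grid d n)) (u v : Grid d n) : Prop :=
  u ∈ F ∧ Relation.ReflTransGen (fun a b => Adj a b ∧ a ∈ F ∧ b ∈ F) u v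

theorem Conn.refl {F : Finset (Grid d n)} {u : Grid d n} (h : u ∈ F) : Conn F u u :=
  ⟨h, Relation.ReflTransGen.refl⟩

theorem Conn.left {F : Finset (Grid d n)} {u v : Grid d n} (h : Conn F u v) : u ∈ F := h.1

theorem Conn.right {F : Finset (Grid d n)} {u v : Grid d n} (h : Conn F u v) : v ∈ F := by
  obtain ⟨h1, h2⟩ := h
  cases h2 with
  | refl => exact h1
  | tail _ h3 => exact h3.2.2

theorem Conn.mono {F F' : Finset (Grid d n)} (hF : F ⊆ F') {u v : Grid d n} (h : Conn F u v) :
    Conn F' u v := by
  obtain ⟨h1, h2⟩ := h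
  refine ⟨hF h1, ?_⟩
  induction h2 with
  | refl => exact Relation.ReflTransGen.refl
  | tail _ h4 ih => exact ih.tail ⟨h4.1, hF h4.2.1, hF h4.2.2⟩

theorem Conn.symm {F : Finset (Grid d n)} {u v : Grid d n} (h : Conn F u v) : Conn F v u := by
  refine ⟨h.right, ?_⟩
  obtain ⟨h1, h2⟩ := h
  induction h2 with
  | refl => exact Relation.ReflTransGen.refl
  | tail _ h4 ih => exact Relation.ReflTransGen.head ⟨h4.1.symm, h4.2.2, h4.2.1⟩ ih

theorem Conn.trans {F : Finset (Grid d n)} {u v w : Grid d n} (h : Conn F u v)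
    (h' : Conn F v w) : Conn F u w := ⟨h.1, h.2.trans h'.2⟩

theorem Conn.adj {F : Finset (Grid d n)} {u v : Grid d n} (hu : u ∈ F) (hv : v ∈ F)
    (h : Adj u v) : Conn F u v := ⟨hu, Relation.ReflTransGen.single ⟨h, hu, hv⟩⟩

/-- the set has a connected pair with extent at least `j` -/
def Ext (F : Finset (Grid d n)) (j : ℕ) : Prop :=
  ∃ (e : Fin d) (u v : Grid d n), Conn F u v ∧ (u e : ℕ) + j ≤ (v e : ℕ)

theorem Ext.mono {F F' : Finset (Grid d n)} (hF : F ⊆ F') {j : ℕ} (h : Ext F j) : Ext F' j := by
  obtain ⟨e, u, v, h1, h2⟩ := h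
  exact ⟨e, u, v, h1.mono hF, h2⟩

theorem Ext.anti {F : Finset (Grid d n)} {j j' : ℕ} (hj : j' ≤ j) (h : Ext F j) : Ext F j' := by
  obtain ⟨e, u, v, h1, h2⟩ := h
  exact ⟨e, u, v, h1, by omega⟩

/-- sets that can be built one site at a time -/
inductive Reach (L : Finset (Grid d n)) (r : ℕ) (B : Finset (Grid d n)) :
    Finset (Grid d n) → Prop
  | empty : Reach L r B ∅
  | add (F : Finset (Grid d n)) (x : Grid d n) : Reach L r B F → x ∈ L →
      (x ∈ B ∨ r ≤ (nbrs x ∩ F).card) → Reach L r B (insert x F)

theorem exists_reach (L : Finset (Grid d n)) (r : ℕ) (B : Finset (Grid d n)) :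
    ∃ F, Reach L r B F ∧ cl L r B ⊆ F := by
  obtain ⟨F, hF, hmax⟩ := Finset.exists_max_image
    (Finset.univ.filter (fun F : Finset (Grid d n) => Reach L r B F)) Finset.card
    ⟨∅, by rw [Finset.mem_filter]; exact ⟨Finset.mem_univ _, Reach.empty⟩⟩
  rw [Finset.mem_filter] at hF
  have key : ∀ y ∈ L, (y ∈ B ∨ r ≤ (nbrs y ∩ F).card) → y ∈ F := by
    intro y hy h
    by_contra hn
    have h1 := hmax (insert y F) (by
      rw [Finset.mem_filter]
      exact ⟨Finset.mem_univ _, Reach.add F y hF.2 hy h⟩)
    rw [Finset.card_insert_of_notMem hn] at h1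
    omega
  refine ⟨F, hF.2, cl_min ?_ ?_⟩
  · intro y hy h; exact key y hy (Or.inl h)
  · intro y hy h; exact key y hy (Or.inr h)

/-- a union of components of a reachable set is internally generated -/
theorem comp_sub {L : Finset (Grid d n)} {r : ℕ} {B : Finset (Grid d n)} {F : Finset (Grid d n)}
    (hF : Reach L r B F) : ∀ (C L' : Finset (Grid d n)), C ⊆ F → C ⊆ L' →
      (∀ x ∈ C, ∀ y ∈ F, Adj x y → y ∈ C) → C ⊆ cl L' r B := by
  induction hF with
  | empty =>
    intro C L' h1 _ _ x hx
    exact absurd (h1 hx) (Finset.notMem_empty x)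
  | add F x _ hxL hx ih =>
    intro C L' h1 h2 h3
    have hCF : C ∩ F ⊆ cl L' r B := by
      apply ih
      · exact Finset.inter_subset_right
      · exact Finset.Subset.trans Finset.inter_subset_left h2
      · intro a ha b hb hab
        rw [Finset.mem_inter] at ha ⊢
        exact ⟨h3 a ha.1 b (Finset.mem_insert_of_mem hb) hab, hb⟩
    intro y hy
    by_cases hyx : y = x
    · subst hyx
      rcases hx with hx | hx
      · exact cl_base (h2 hy) hx
      · apply cl_step (h2 hy)
        refine le_trans hx (Finset.card_le_card ?_)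
        intro z hz
        rw [Finset.mem_inter] at hz ⊢
        refine ⟨hz.1, hCF (Finset.mem_inter.2 ⟨?_, hz.2⟩)⟩
        exact h3 y hy z (Finset.mem_insert_of_mem hz.2) (mem_nbrs.1 hz.1)
    · apply hCF
      rw [Finset.mem_inter]
      refine ⟨hy, ?_⟩
      rcases Finset.mem_insert.1 (h1 hy) with h | h
      · exact absurd h hyx
      · exact h

/-- first hitting of the new site -/
theorem conn_insert {F : Finset (Grid d n)} {x : Grid d n} {u v : Grid d n}
    (h : Conn (insert x F) u v) : Conn F u v ∨ Conn (insert x F) u x := by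
  obtain ⟨h1, h2⟩ := h
  induction h2 with
  | refl =>
    rcases Finset.mem_insert.1 h1 with h | h
    · right; rw [h] at h1 ⊢; exact Conn.refl h1
    · left; exact Conn.refl h
  | tail h3 h4 ih =>
    rename_i b c
    rcases ih with ih | ih
    · by_cases hc : c = x
      · right
        refine ⟨h1, ?_⟩
        have h5 := h3.tail h4
        rw [hc] at h5
        exact h5
      · left
        refine ih.trans (Conn.adj ih.right ?_ h4.1)
        rcases Finset.mem_insert.1 h4.2.2 with h | h
        · exact absurd h hc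
        · exact h
    · exact Or.inr ih

theorem conn_hit {F : Finset (Grid d n)} {x y : Grid d n} (hyx : y ≠ x)
    (h : Conn (insert x F) y x) : ∃ z, Adj z x ∧ Conn F y z := by
  obtain ⟨h1, h2⟩ := h
  revert h1 hyx
  induction h2 using Relation.ReflTransGen.head_induction_on with
  | refl => intro h _; exact absurd rfl h
  | head h3 h4 ih =>
    rename_i a c
    intro hax ha
    have haF : a ∈ F := by
      rcases Finset.mem_insert.1 ha with h | h
      · exact absurd h hax
      · exact h
    by_cases hc : c = x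
    · exact ⟨a, by rw [← hc]; exact h3.1, Conn.refl haF⟩
    · obtain ⟨z, hz1, hz2⟩ := ih hc h3.2.2
      exact ⟨z, hz1, (Conn.adj haF hz2.left h3.1).trans hz2⟩

/-- the sup-norm ball -/
noncomputable def ball (x : Grid d n) (j : ℕ) : Finset (Grid d n) :=
  Finset.univ.filter (fun y => ∀ e, (x e : ℕ) ≤ (y e : ℕ) + j ∧ (y e : ℕ) ≤ (x e : ℕ) + j)

/-- Aizenman-Lebowitz lemma -/
theorem al_reach {L : Finset (Grid d n)} {r : ℕ} {B : Finset (Grid d n)} {j : ℕ} (hj : 1 ≤ j)
    {F : Finset (Grid d n)} (hF : Reach L r B F) (hL : F ⊆ L) (h : Ext F j) :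
    ∃ x ∈ L, Ext (cl (L ∩ ball x j) r B) j := by
  induction hF with
  | empty =>
    obtain ⟨e, u, v, h1, _⟩ := h
    exact absurd h1.left (Finset.notMem_empty u)
  | add F x hR hxL hx ih =>
    by_cases hFj : Ext F j
    · exact ih (Finset.Subset.trans (Finset.subset_insert _ _) hL) hFj
    · obtain ⟨e, u, v, h1, h2⟩ := h
      have hux : Conn (insert x F) u x := by
        rcases conn_insert h1 with h | h
        · exact absurd ⟨e, u, v, h, h2⟩ hFj
        · exact h
      set C := (insert x F).filter (fun y => Conn (insert x F) y x) with hC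
      have hball : C ⊆ L ∩ ball x j := by
        intro y hy
        rw [hC, Finset.mem_filter] at hy
        rw [Finset.mem_inter]
        refine ⟨hL hy.1, ?_⟩
        unfold ball
        rw [Finset.mem_filter]
        refine ⟨Finset.mem_univ _, fun e' => ?_⟩
        by_cases hyx : y = x
        · subst hyx; omega
        · obtain ⟨z, hz1, hz2⟩ := conn_hit hyx hy.2
          have a1 := hz1.coord_le e'
          have a2 : ¬ (y e' : ℕ) + j ≤ (z e' : ℕ) := fun h => hFj ⟨e', y, z, hz2, h⟩
          have a3 : ¬ (z e' : ℕ) + j ≤ (y e' : ℕ) := fun h => hFj ⟨e', z, y, hz2.symm, h⟩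
          omega
      have hsub : C ⊆ cl (L ∩ ball x j) r B := by
        apply comp_sub (Reach.add F x hR hxL hx) C _ (Finset.filter_subset _ _) hball
        intro a ha b hb hab
        rw [hC, Finset.mem_filter] at ha ⊢
        exact ⟨hb, (Conn.adj hb ha.1 hab.symm).trans ha.2⟩
      refine ⟨x, hxL, e, u, v, ?_, h2⟩
      apply Conn.mono hsub
      -- connect inside C
      have hin : ∀ w, Relation.ReflTransGen
          (fun a b => Adj a b ∧ a ∈ insert x F ∧ b ∈ insert x F) u w → Conn C u w := by
        intro w hw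
        have huC : u ∈ C := by
          rw [hC, Finset.mem_filter]
          exact ⟨h1.left, hux⟩
        induction hw with
        | refl => exact Conn.refl huC
        | tail h3 h4 ih' =>
          rename_i b c
          refine ih'.trans (Conn.adj ih'.right ?_ h4.1)
          have := ih'.right
          rw [hC, Finset.mem_filter] at this ⊢
          exact ⟨h4.2.2, (Conn.adj h4.2.2 this.1 h4.1.symm).trans this.2⟩
      exact hin v h1.2

theorem reach_sub {L : Finset (Grid d n)} {r : ℕ} {B : Finset (Grid d n)}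
    {F : Finset (Grid d n)} (hF : Reach L r B F) : F ⊆ L := by
  induction hF with
  | empty => exact Finset.empty_subset _
  | add F x _ hxL _ ih =>
    intro y hy
    rcases Finset.mem_insert.1 hy with h | h
    · rw [h]; exact hxL
    · exact ih h

theorem al {L : Finset (Grid d n)} {r : ℕ} {B : Finset (Grid d n)} {j : ℕ} (hj : 1 ≤ j)
    (h : Ext (cl L r B) j) : ∃ x ∈ L, Ext (cl (L ∩ ball x j) r B) j := by
  obtain ⟨F, hF, hsub⟩ := exists_reach L r B
  exact al_reach hj hF (reach_sub hF) (h.mono hsub)

/-- a slab -/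
noncomputable def slab (e : Fin d) (a w : ℕ) : Finset (Grid d n) :=
  Finset.univ.filter (fun y => a ≤ (y e : ℕ) ∧ (y e : ℕ) < a + w)

theorem mem_slab {e : Fin d} {a w : ℕ} {y : Grid d n} :
    y ∈ (slab e a w : Finset (Grid d n)) ↔ a ≤ (y e : ℕ) ∧ (y e : ℕ) < a + w := by
  unfold slab
  simp

theorem cl_slab {L : Finset (Grid d n)} {s : ℕ} {B : Finset (Grid d n)} {e : Fin d} {a w : ℕ}
    (hw : 2 ≤ w) :
    cl L (s + 1) B ∩ slab e a w ⊆ cl (L ∩ slab e a w) s B := by
  have hsub : cl L (s + 1) B ⊆ cl (L ∩ slab e a w) s B ∪ (L \ slab e a w) := by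
    apply cl_min
    · intro y hy hB
      by_cases h : y ∈ (slab e a w : Finset (Grid d n))
      · exact Finset.mem_union_left _ (cl_base (Finset.mem_inter.2 ⟨hy, h⟩) hB)
      · exact Finset.mem_union_right _ (Finset.mem_sdiff.2 ⟨hy, h⟩)
    · intro y hy hcard
      by_cases h : y ∈ (slab e a w : Finset (Grid d n))
      · apply Finset.mem_union_left
        apply cl_step (Finset.mem_inter.2 ⟨hy, h⟩)
        have h1 : nbrs y ∩ (cl (L ∩ slab e a w) s B ∪ (L \ slab e a w))
            ⊆ (nbrs y ∩ cl (L ∩ slab e a w) s B) ∪ (nbrs y \ slab e a w) := by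
          intro z hz
          rw [Finset.mem_inter, Finset.mem_union] at hz
          rw [Finset.mem_union, Finset.mem_inter, Finset.mem_sdiff]
          rcases hz.2 with h' | h'
          · exact Or.inl ⟨hz.1, h'⟩
          · exact Or.inr ⟨hz.1, (Finset.mem_sdiff.1 h').2⟩
        have h2 : (nbrs y \ slab e a w).card ≤ 1 := by
          rw [Finset.card_le_one]
          have hy' := mem_slab.1 h
          have key : ∀ z ∈ nbrs y \ slab e a w, (∀ e' ≠ e, y e' = z e') ∧
              (((y e : ℕ) = a ∧ (z e : ℕ) + 1 = a) ∨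
                ((y e : ℕ) + 1 = a + w ∧ (z e : ℕ) = a + w)) := by
            intro z hz
            rw [Finset.mem_sdiff, mem_nbrs, mem_slab] at hz
            obtain ⟨⟨e0, h3, h4⟩, h5⟩ := hz
            by_cases he : e0 = e
            · subst he
              refine ⟨fun e' he' => h4 e' he', ?_⟩
              omega
            · exfalso
              rw [← h4 e (fun h => he h.symm)] at h5
              omega
          intro z hz z' hz'
          obtain ⟨k1, k2⟩ := key z hz
          obtain ⟨k3, k4⟩ := key z' hz'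
          funext e'
          by_cases he : e' = e
          · subst he
            apply Fin.ext
            omega
          · rw [← k1 e' he, ← k3 e' he]
        have h3 := Finset.card_le_card h1
        have h4 := Finset.card_union_le (nbrs y ∩ cl (L ∩ slab e a w) s B) (nbrs y \ slab e a w)
        omega
      · exact Finset.mem_union_right _ (Finset.mem_sdiff.2 ⟨hy, h⟩)
  intro y hy
  rw [Finset.mem_inter] at hy
  rcases Finset.mem_union.1 (hsub hy.1) with h | h
  · exact h
  · exact absurd hy.2 (Finset.mem_sdiff.1 h).2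

theorem crossing {F : Finset (Grid d n)} {e : Fin d} {a w : ℕ} {u v : Grid d n}
    (h : Conn F u v) (hu : (u e : ℕ) ≤ a) (hv : a + w ≤ (v e : ℕ)) :
    ∃ u' v', Conn (F ∩ slab e a (w + 1)) u' v' ∧ (u' e : ℕ) = a ∧ (v' e : ℕ) = a + w := by
  obtain ⟨h1, h2⟩ := h
  have key : ∀ y, Relation.ReflTransGen (fun a b => Adj a b ∧ a ∈ F ∧ b ∈ F) u y →
      (∃ u' v', Conn (F ∩ slab e a (w + 1)) u' v' ∧ (u' e : ℕ) = a ∧ (v' e : ℕ) = a + w) ∨
      (y ∈ F ∧ (y e : ℕ) < a) ∨
      ((y e : ℕ) < a + w ∧ ∃ u', Conn (F ∩ slab e a (w + 1)) u' y ∧ (u' e : ℕ) = a) := by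
    intro y hy
    induction hy with
    | refl =>
      rcases Nat.lt_or_ge (u e : ℕ) a with h | h
      · exact Or.inr (Or.inl ⟨h1, h⟩)
      · have hua : (u e : ℕ) = a := by omega
        have hmem : u ∈ F ∩ slab e a (w + 1) := by
          rw [Finset.mem_inter, mem_slab]
          exact ⟨h1, by omega, by omega⟩
        rcases Nat.eq_zero_or_pos w with h0 | h0
        · left
          exact ⟨u, u, Conn.refl hmem, hua, by omega⟩
        · right; right
          exact ⟨by omega, u, Conn.refl hmem, hua⟩
    | tail h3 h4 ih =>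
      rename_i b c
      rcases ih with ih | ih | ih
      · exact Or.inl ih
      · have hc := h4.1.coord_le e
        rcases Nat.lt_or_ge (c e : ℕ) a with h | h
        · exact Or.inr (Or.inl ⟨h4.2.2, h⟩)
        · have hua : (c e : ℕ) = a := by omega
          have hmem : c ∈ F ∩ slab e a (w + 1) := by
            rw [Finset.mem_inter, mem_slab]
            exact ⟨h4.2.2, by omega, by omega⟩
          rcases Nat.eq_zero_or_pos w with h0 | h0
          · left
            exact ⟨c, c, Conn.refl hmem, hua, by omega⟩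
          · right; right
            exact ⟨by omega, c, Conn.refl hmem, hua⟩
      · obtain ⟨i1, u', i2, i3⟩ := ih
        have hc := h4.1.coord_le e
        have hb := mem_slab.1 (Finset.mem_inter.1 i2.right).2
        rcases Nat.lt_or_ge (c e : ℕ) a with h | h
        · exact Or.inr (Or.inl ⟨h4.2.2, h⟩)
        · have hmem : c ∈ F ∩ slab e a (w + 1) := by
            rw [Finset.mem_inter, mem_slab]
            exact ⟨h4.2.2, by omega, by omega⟩
          have hcon : Conn (F ∩ slab e a (w + 1)) u' c := i2.trans (Conn.adj i2.right hmem h4.1)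
          rcases Nat.lt_or_ge (c e : ℕ) (a + w) with h' | h'
          · right; right
            exact ⟨h', u', hcon, i3⟩
          · left
            exact ⟨u', c, hcon, i3, by omega⟩
  rcases key v h2 with h | h | h
  · exact h
  · omega
  · omega

end Pool.Agent.Helper91.BP
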