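import Pool.Agent.Helper91.BP.Pr

/-! Definitions for bootstrap percolation on the grid. -/

namespace Pool.Agent.Helper91.BP
open Finset Classical

/-- vertices of the grid `ℤ_n^d` -/
abbrev Grid (d n : ℕ) : Type := Fin d → Fin n

/-- two vertices are adjacent when they differ by exactly `1` in exactly one coordinate -/
def Adj {d n : ℕ} (x y : Grid d n) : Prop :=
  ∃ e : Fin d, ((x e : ℕ) + 1 = (y e : ℕ) ∨ (y e : ℕ) + 1 = (x e : ℕ)) ∧
    ∀ e' : Fin d, e' ≠ e → x e' = y e'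

/-- the neighbourhood `N(v)` -/
noncomputable def nbrs {d n : ℕ} (v : Grid d n) : Finset (Grid d n) :=
  Finset.univ.filter (fun y => Adj v y)

/-- one step of `r`-neighbour bootstrap percolation: `A ↦ A ∪ {v : |N(v) ∩ A| ≥ r}` -/
noncomputable def step {d n : ℕ} (r : ℕ) (A : Finset (Grid d n)) : Finset (Grid d n) :=
  A ∪ Finset.univ.filter (fun v => r ≤ (nbrs v ∩ A).card)

/-- `A` percolates: every vertex lies in some `A_t` -/
def Percolates {d n : ℕ} (r : ℕ) (A : Finset (Grid d n)) : Prop :=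
  ∀ v : Grid d n, ∃ t : ℕ, v ∈ (step r)^[t] A

/-- the critical probability `p_c(ℤ_n^d, r)` -/
noncomputable def pc (d n r : ℕ) : ℝ :=
  sInf {p : ℝ | 0 ≤ p ∧ p ≤ 1 ∧ 1 / 2 ≤ Pr p (fun A : Finset (Grid d n) => Percolates r A)}

/-- `f(d) = min {n ∈ ℕ : p_c(ℤ_n^d, d) ≤ 1/4}` -/
noncomputable def f (d : ℕ) : ℕ := sInf {n : ℕ | 1 ≤ n ∧ pc d n d ≤ 1 / 4}

/-- the tower of `2`s of height `k` -/
def T : ℕ → ℕ
  | 0 => 1
  | k + 1 => 2 ^ T k

end Pool.Agent.Helper91.BP
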