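import Pool.Agent.Helper91.BP.Cl

/-! Degrees, common neighbours and the exponential moment bound. -/

namespace Pool.Agent.Helper91.BP
open Finset Classical

set_option linter.unusedSectionVars false
variable {d n : ℕ}

theorem card_nbrs_le (x : Grid d n) : (nbrs x).card ≤ 2 * d := by
  have hch : ∀ y ∈ nbrs x, ∃ e : Fin d, ((x e : ℕ) + 1 = (y e : ℕ) ∨ (y e : ℕ) + 1 = (x e : ℕ)) ∧
      ∀ e' : Fin d, e' ≠ e → x e' = y e' := by
    intro y hy
    exact mem_nbrs.1 hy
  rcases Nat.eq_zero_or_pos d with hd | hd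
  · subst hd
    have : nbrs x = ∅ := by
      apply Finset.eq_empty_of_forall_notMem
      intro y hy
      obtain ⟨e, _⟩ := hch y hy
      exact e.elim0
    rw [this]; simp
  have : Nonempty (Fin d) := ⟨⟨0, hd⟩⟩
  choose! g hg using hch
  have h : (nbrs x).card ≤ (Finset.univ : Finset (Fin d × Bool)).card := by
    apply Finset.card_le_card_of_injOn (fun y => (g y, decide ((x (g y) : ℕ) < (y (g y) : ℕ))))
    · intro y _; exact Finset.mem_coe.2 (Finset.mem_univ _)
    · intro y hy z hz hyz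
      simp only [Prod.mk.injEq, decide_eq_decide] at hyz
      obtain ⟨h1, h2⟩ := hyz
      obtain ⟨a1, a2⟩ := hg y (Finset.mem_coe.1 hy)
      obtain ⟨b1, b2⟩ := hg z (Finset.mem_coe.1 hz)
      funext e'
      by_cases he : e' = g y
      · rw [he]
        rw [← h1] at b1 h2
        apply Fin.ext
        omega
      · rw [← a2 e' he, ← b2 e' (by rw [← h1]; exact he)]
  rw [Finset.card_univ, Fintype.card_prod, Fintype.card_fin, Fintype.card_bool] at h
  omega

theorem card_nbrs_ge (hn : 2 ≤ n) (x : Grid d n) : d ≤ (nbrs x).card := by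
  have hb : ∀ e : Fin d, (if (x e : ℕ) + 1 < n then (x e : ℕ) + 1 else (x e : ℕ) - 1) < n := by
    intro e
    have := (x e).2
    split_ifs <;> omega
  have h : (Finset.univ : Finset (Fin d)).card ≤ (nbrs x).card := by
    apply Finset.card_le_card_of_injOn (fun e => Function.update x e ⟨_, hb e⟩)
    · intro e _
      rw [Finset.mem_coe, mem_nbrs]
      refine ⟨e, ?_, ?_⟩
      · simp only [Function.update_self]
        have := (x e).2
        split_ifs with h <;> omega
      · intro e' he'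
        simp only [Function.update_of_ne he']
    · intro e _ e' _ hee
      by_contra hne
      have h1 := congrFun hee e
      simp only [Function.update_self, Function.update_of_ne hne] at h1
      have h2 := congrArg Fin.val h1
      simp only at h2
      have := (x e).2
      split_ifs at h2 with h <;> omega
  rw [Finset.card_univ, Fintype.card_fin] at h
  exact h

theorem common_le {x z : Grid d n} (hxz : x ≠ z) : (nbrs x ∩ nbrs z).card ≤ 2 := by
  obtain ⟨a, ha⟩ : ∃ a, x a ≠ z a := by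
    by_contra hcon
    push Not at hcon
    exact hxz (funext hcon)
  have hav : (x a : ℕ) ≠ (z a : ℕ) := fun h => ha (Fin.ext h)
  have hsplit : nbrs x ∩ nbrs z ⊆ ((nbrs x ∩ nbrs z).filter (fun y => y a = x a)) ∪
      ((nbrs x ∩ nbrs z).filter (fun y => y a ≠ x a)) := by
    intro y hy
    rw [Finset.mem_union, Finset.mem_filter, Finset.mem_filter]
    by_cases h : y a = x a
    · exact Or.inl ⟨hy, h⟩
    · exact Or.inr ⟨hy, h⟩
  have h1 : ((nbrs x ∩ nbrs z).filter (fun y => y a = x a)).card ≤ 1 := by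
    rw [Finset.card_le_one]
    have key : ∀ y ∈ (nbrs x ∩ nbrs z).filter (fun y => y a = x a), ∀ e', e' ≠ a → z e' = y e' := by
      intro y hy
      rw [Finset.mem_filter, Finset.mem_inter, mem_nbrs, mem_nbrs] at hy
      obtain ⟨⟨_, ⟨e, h3, h4⟩⟩, h5⟩ := hy
      have : e = a := by
        by_contra hne
        have := h4 a (fun h => hne h.symm)
        rw [h5] at this
        exact ha this.symm
      rw [← this]
      exact h4
    intro y hy y' hy'
    have k1 := key y hy
    have k2 := key y' hy'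
    rw [Finset.mem_filter] at hy hy'
    funext e'
    by_cases he : e' = a
    · rw [he, hy.2, hy'.2]
    · rw [← k1 e' he, ← k2 e' he]
  have h2 : ((nbrs x ∩ nbrs z).filter (fun y => y a ≠ x a)).card ≤ 1 := by
    rw [Finset.card_le_one]
    have key : ∀ y ∈ (nbrs x ∩ nbrs z).filter (fun y => y a ≠ x a), (∀ e', e' ≠ a → x e' = y e') ∧
        ((x a : ℕ) + 1 = (y a : ℕ) ∨ (y a : ℕ) + 1 = (x a : ℕ)) ∧
        (y a = z a ∨ ((∀ e', e' ≠ a → z e' = y e') ∧
          ((z a : ℕ) + 1 = (y a : ℕ) ∨ (y a : ℕ) + 1 = (z a : ℕ)))) := by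
      intro y hy
      rw [Finset.mem_filter, Finset.mem_inter, mem_nbrs, mem_nbrs] at hy
      obtain ⟨⟨⟨e, h3, h4⟩, ⟨e2, h5, h6⟩⟩, h7⟩ := hy
      have hea : e = a := by
        by_contra hne
        exact h7 (h4 a (fun h => hne h.symm)).symm
      subst hea
      refine ⟨h4, h3, ?_⟩
      by_cases he2 : e2 = e
      · subst he2
        exact Or.inr ⟨h6, h5⟩
      · exact Or.inl (h6 e (fun h => he2 h.symm)).symm
    intro y hy y' hy'
    obtain ⟨k1, k2, k3⟩ := key y hy
    obtain ⟨l1, l2, l3⟩ := key y' hy'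
    funext e'
    by_cases he : e' = a
    · rw [he]
      apply Fin.ext
      rcases k3 with k3 | k3
      · rcases l3 with l3 | l3
        · rw [k3, l3]
        · -- z agrees with x off a, so y adj z differ at a
          exfalso
          have hz : ∀ e', e' ≠ a → z e' = x e' := fun e'' h'' => by rw [l3.1 e'' h'', l1 e'' h'']
          have hyz : y = z := by
            funext e''
            by_cases h'' : e'' = a
            · rw [h'', k3]
            · rw [hz e'' h'', k1 e'' h'']
          rw [Finset.mem_filter, Finset.mem_inter, mem_nbrs, mem_nbrs] at hy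
          exact hy.1.2.ne hyz.symm
      · rcases l3 with l3 | l3
        · exfalso
          have hz : ∀ e', e' ≠ a → z e' = x e' := fun e'' h'' => by rw [k3.1 e'' h'', k1 e'' h'']
          have hyz : y' = z := by
            funext e''
            by_cases h'' : e'' = a
            · rw [h'', l3]
            · rw [hz e'' h'', l1 e'' h'']
          rw [Finset.mem_filter, Finset.mem_inter, mem_nbrs, mem_nbrs] at hy'
          exact hy'.1.2.ne hyz.symm
        · have e1 := k3.2
          have e2 := l3.2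
          omega
    · rw [← k1 e' he, ← l1 e' he]
  have h3 := Finset.card_le_card hsplit
  have h4 := Finset.card_union_le ((nbrs x ∩ nbrs z).filter (fun y => y a = x a))
    ((nbrs x ∩ nbrs z).filter (fun y => y a ≠ x a))
  omega

/-- sites with at least `t` neighbours in `A` -/
noncomputable def B0 (t : ℕ) (A : Finset (Grid d n)) : Finset (Grid d n) :=
  Finset.univ.filter (fun x => t ≤ (nbrs x ∩ A).card)

theorem mem_B0 {t : ℕ} {A : Finset (Grid d n)} {x : Grid d n} :
    x ∈ B0 t A ↔ t ≤ (nbrs x ∩ A).card := by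
  unfold B0
  simp

theorem exp_fifth : Real.exp (1 / 5) ≤ 5 / 4 := by
  have h := Real.exp_one_lt_d9
  by_contra hcon
  push Not at hcon
  have h1 : Real.exp (1 / 5) ^ 5 = Real.exp 1 := by
    rw [← Real.exp_nat_mul]; norm_num
  have h2 : (5 / 4 : ℝ) ^ 5 < Real.exp (1 / 5) ^ 5 := by
    apply pow_lt_pow_left₀ hcon (by norm_num) (by norm_num)
  rw [h1] at h2
  norm_num at h2
  linarith

theorem exp_two_fifth : Real.exp (2 / 5) ≤ 3 / 2 := by
  have h := Real.exp_one_lt_d9
  have hp := Real.exp_pos 1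
  by_contra hcon
  push Not at hcon
  have h1 : Real.exp (2 / 5) ^ 5 = Real.exp 1 * Real.exp 1 := by
    rw [← Real.exp_nat_mul, ← Real.exp_add]; norm_num
  have h2 : (3 / 2 : ℝ) ^ 5 < Real.exp (2 / 5) ^ 5 := by
    apply pow_lt_pow_left₀ hcon (by norm_num) (by norm_num)
  rw [h1] at h2
  have h3 : Real.exp 1 * Real.exp 1 ≤ 2.7182818286 * 2.7182818286 :=
    mul_le_mul h.le h.le hp.le (by norm_num)
  norm_num at h2 h3
  linarith

theorem factor_le {p : ℝ} (h0 : 0 ≤ p) (h1 : p ≤ 13 / 50) {m : ℕ} (hm : m ≤ 2) :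
    p * Real.exp ((m : ℝ) / 5) + (1 - p) * 1 ≤ Real.exp (13 / 200 * (m : ℝ)) := by
  have he : Real.exp ((m : ℝ) / 5) - 1 ≤ (m : ℝ) / 4 := by
    interval_cases m
    · simp
    · have := exp_fifth
      norm_num at this ⊢
      linarith
    · have := exp_two_fifth
      norm_num at this ⊢
      linarith
  have hm0 : (0 : ℝ) ≤ (m : ℝ) := Nat.cast_nonneg m
  have h2 := Real.add_one_le_exp (13 / 200 * (m : ℝ))
  nlinarith

theorem double_count (Y A : Finset (Grid d n)) :
    ∑ y ∈ Y, (nbrs y ∩ A).card = ∑ z ∈ A, (nbrs z ∩ Y).card := by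
  have h1 : ∀ y, (nbrs y ∩ A).card = ∑ z ∈ A, if Adj y z then 1 else 0 := by
    intro y
    rw [← Finset.card_filter]
    congr 1
    ext z
    rw [Finset.mem_inter, mem_nbrs, Finset.mem_filter]
    tauto
  have h2 : ∀ z, (nbrs z ∩ Y).card = ∑ y ∈ Y, if Adj y z then 1 else 0 := by
    intro z
    rw [← Finset.card_filter]
    congr 1
    ext y
    rw [Finset.mem_inter, mem_nbrs, Finset.mem_filter]
    constructor
    · rintro ⟨a, b⟩; exact ⟨b, a.symm⟩
    · rintro ⟨a, b⟩; exact ⟨b.symm, a⟩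
  simp_rw [h1, h2]
  rw [Finset.sum_comm]

theorem B0_prob {p : ℝ} (h0 : 0 ≤ p) (h1 : p ≤ 13 / 50) (Y : Finset (Grid d n)) (x0 : Grid d n)
    (hY : ∀ z, z ≠ x0 → (nbrs z ∩ Y).card ≤ 2) (t : ℕ) :
    Pr p (fun A => Y ⊆ B0 t A) ≤
      Real.exp ((Y.card : ℝ) * (1 / 5 - (t : ℝ) / 5 + 13 / 100 * (d : ℝ))) := by
  have hp1 : p ≤ 1 := by linarith
  have step1 := Pr_le_sum h0 hp1 (fun A : Finset (Grid d n) => Y ⊆ B0 t A)
    (fun A => Real.exp (-((t : ℝ) * Y.card / 5)) *
      ((∏ z ∈ A, Real.exp (((nbrs z ∩ Y).card : ℝ) / 5)) * (∏ z ∈ Aᶜ, (1 : ℝ))))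
    (by
      intro A
      apply mul_nonneg (Real.exp_pos _).le
      apply mul_nonneg
      · exact Finset.prod_nonneg (fun _ _ => (Real.exp_pos _).le)
      · exact Finset.prod_nonneg (fun _ _ => zero_le_one))
    (by
      intro A hA
      rw [Finset.prod_const_one, mul_one, ← Real.exp_sum, ← Real.exp_add]
      apply Real.one_le_exp
      have hs : (t : ℝ) * Y.card ≤ ∑ z ∈ A, ((nbrs z ∩ Y).card : ℝ) := by
        rw [← Nat.cast_sum, ← double_count]
        have : t * Y.card ≤ ∑ y ∈ Y, (nbrs y ∩ A).card := by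
          rw [mul_comm, ← smul_eq_mul, ← Finset.sum_const]
          apply Finset.sum_le_sum
          intro y hy
          exact mem_B0.1 (hA hy)
        exact_mod_cast this
      rw [← Finset.sum_div]
      linarith)
  refine le_trans step1 ?_
  have hrew : ∀ A : Finset (Grid d n), wt p A * (Real.exp (-((t : ℝ) * Y.card / 5)) *
      ((∏ z ∈ A, Real.exp (((nbrs z ∩ Y).card : ℝ) / 5)) * (∏ z ∈ Aᶜ, (1 : ℝ))))
      = Real.exp (-((t : ℝ) * Y.card / 5)) * (wt p A *
      ((∏ z ∈ A, Real.exp (((nbrs z ∩ Y).card : ℝ) / 5)) * (∏ z ∈ Aᶜ, (1 : ℝ)))) := by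
    intro A; ring
  simp_rw [hrew]
  rw [← Finset.mul_sum, sum_prod p (fun z => Real.exp (((nbrs z ∩ Y).card : ℝ) / 5)) (fun _ => 1)]
  have hfac : ∀ z : Grid d n, p * Real.exp (((nbrs z ∩ Y).card : ℝ) / 5) + (1 - p) * 1 ≤
      Real.exp (13 / 200 * ((nbrs z ∩ Y).card : ℝ)) *
        (if z = x0 then Real.exp ((Y.card : ℝ) / 5) else 1) := by
    intro z
    by_cases hz : z = x0
    · rw [if_pos hz]
      have hc : ((nbrs z ∩ Y).card : ℝ) ≤ (Y.card : ℝ) := by
        exact_mod_cast Finset.card_le_card Finset.inter_subset_right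
      have hc0 : (0 : ℝ) ≤ ((nbrs z ∩ Y).card : ℝ) := Nat.cast_nonneg _
      have e1 : Real.exp (((nbrs z ∩ Y).card : ℝ) / 5) ≤ Real.exp ((Y.card : ℝ) / 5) :=
        Real.exp_le_exp.2 (by linarith)
      have e2 : 1 ≤ Real.exp (13 / 200 * ((nbrs z ∩ Y).card : ℝ)) :=
        Real.one_le_exp (by linarith)
      have e3 : 1 ≤ Real.exp ((Y.card : ℝ) / 5) := Real.one_le_exp (by linarith)
      have e4 : p * Real.exp (((nbrs z ∩ Y).card : ℝ) / 5) + (1 - p) * 1 ≤
          Real.exp ((Y.card : ℝ) / 5) := by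
        nlinarith
      calc _ ≤ Real.exp ((Y.card : ℝ) / 5) := e4
        _ = 1 * Real.exp ((Y.card : ℝ) / 5) := by ring
        _ ≤ _ := mul_le_mul_of_nonneg_right e2 (Real.exp_pos _).le
    · rw [if_neg hz]
      have := factor_le h0 h1 (hY z hz)
      linarith
  have hprod : ∏ z : Grid d n, (p * Real.exp (((nbrs z ∩ Y).card : ℝ) / 5) + (1 - p) * 1) ≤
      ∏ z : Grid d n, (Real.exp (13 / 200 * ((nbrs z ∩ Y).card : ℝ)) *
        (if z = x0 then Real.exp ((Y.card : ℝ) / 5) else 1)) := by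
    apply Finset.prod_le_prod
    · intro z _
      have := Real.exp_pos (((nbrs z ∩ Y).card : ℝ) / 5)
      have h2 : 0 ≤ 1 - p := by linarith
      positivity
    · intro z _
      exact hfac z
  have hsum : ∑ z : Grid d n, ((nbrs z ∩ Y).card : ℝ) ≤ 2 * (d : ℝ) * (Y.card : ℝ) := by
    rw [← Nat.cast_sum, ← double_count]
    have : ∑ y ∈ Y, (nbrs y ∩ Finset.univ).card ≤ 2 * d * Y.card := by
      rw [mul_comm, ← smul_eq_mul, ← Finset.sum_const]
      apply Finset.sum_le_sum
      intro y _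
      rw [Finset.inter_univ]
      exact card_nbrs_le y
    exact_mod_cast this
  calc Real.exp (-((t : ℝ) * Y.card / 5)) *
        ∏ z : Grid d n, (p * Real.exp (((nbrs z ∩ Y).card : ℝ) / 5) + (1 - p) * 1)
      ≤ Real.exp (-((t : ℝ) * Y.card / 5)) *
        ∏ z : Grid d n, (Real.exp (13 / 200 * ((nbrs z ∩ Y).card : ℝ)) *
        (if z = x0 then Real.exp ((Y.card : ℝ) / 5) else 1)) :=
        mul_le_mul_of_nonneg_left hprod (Real.exp_pos _).le
    _ = Real.exp (-((t : ℝ) * Y.card / 5)) *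
        (Real.exp (13 / 200 * ∑ z : Grid d n, ((nbrs z ∩ Y).card : ℝ)) *
          Real.exp ((Y.card : ℝ) / 5)) := by
        rw [Finset.prod_mul_distrib, Finset.prod_ite_eq', if_pos (Finset.mem_univ _),
          ← Real.exp_sum, Finset.mul_sum]
    _ = Real.exp (-((t : ℝ) * Y.card / 5) + (13 / 200 * ∑ z : Grid d n, ((nbrs z ∩ Y).card : ℝ) +
          (Y.card : ℝ) / 5)) := by
        rw [Real.exp_add, Real.exp_add]
    _ ≤ _ := by
        apply Real.exp_le_exp.2
        nlinarith

end Pool.Agent.Helper91.BP
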