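import Pool.Agent.Helper91.BP.Cl

/-! Deterministic growth of cubes. -/

namespace Pool.Agent.Helper91.BP
open Finset Classical

set_option linter.unusedSectionVars false
variable {d n : ℕ}

/-- width of a cube in direction `e` -/
def wd (J : Finset (Fin d)) (l : ℕ) (e : Fin d) : ℕ := if e ∈ J then l else 1

theorem wd_mem {J : Finset (Fin d)} {l : ℕ} {e : Fin d} (h : e ∈ J) : wd J l e = l := by
  simp [wd, h]

theorem wd_not {J : Finset (Fin d)} {l : ℕ} {e : Fin d} (h : e ∉ J) : wd J l e = 1 := by
  simp [wd, h]

theorem wd_pos {J : Finset (Fin d)} {l : ℕ} (hl : 1 ≤ l) (e : Fin d) : 1 ≤ wd J l e := by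
  unfold wd
  split_ifs <;> omega

/-- a cube with free directions `J` -/
noncomputable def cube (J : Finset (Fin d)) (c : Fin d → ℕ) (l : ℕ) : Finset (Grid d n) :=
  Finset.univ.filter (fun y : Grid d n => ∀ e, c e ≤ (y e : ℕ) ∧ (y e : ℕ) < c e + wd J l e)

theorem mem_cube {J : Finset (Fin d)} {c : Fin d → ℕ} {l : ℕ} {y : Grid d n} :
    y ∈ (cube J c l : Finset (Grid d n)) ↔ ∀ e, c e ≤ (y e : ℕ) ∧ (y e : ℕ) < c e + wd J l e := by
  unfold cube
  simp

/-- the cube is internally spanned at threshold `|J|` -/
def Span (J : Finset (Fin d)) (c : Fin d → ℕ) (l : ℕ) (A : Finset (Grid d n)) : Prop :=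
  cube J c l ⊆ cl (cube J c l) J.card A

/-- all faces of side `l` inside the cube of side `N` are spanned -/
def Faces (J : Finset (Fin d)) (c : Fin d → ℕ) (N l : ℕ) (A : Finset (Grid d n)) : Prop :=
  ∀ e ∈ J, ∀ y : Grid d n, (∀ e', c e' ≤ (y e' : ℕ) ∧
    (y e' : ℕ) + wd (J.erase e) l e' ≤ c e' + wd J N e') →
    Span (J.erase e) (fun e' => (y e' : ℕ)) l A

theorem Span.mono {J : Finset (Fin d)} {c : Fin d → ℕ} {l : ℕ} {A A' : Finset (Grid d n)}
    (h : Span J c l A) (hA : A ⊆ A') : Span J c l A' := by
  unfold Span at *
  exact Finset.Subset.trans h (cl_mono (Finset.Subset.refl _) le_rfl (fun x _ hx => hA hx))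

theorem Faces.mono {J : Finset (Fin d)} {c : Fin d → ℕ} {N l : ℕ} {A A' : Finset (Grid d n)}
    (h : Faces J c N l A) (hA : A ⊆ A') : Faces J c N l A' :=
  fun e he y hy => (h e he y hy).mono hA

/-- a spanned face next to an infected region becomes infected -/
theorem face_fill {Q F : Finset (Grid d n)} {k : ℕ} {A : Finset (Grid d n)} (hFQ : F ⊆ Q)
    (hF : F ⊆ cl F k A)
    (hnb : ∀ z ∈ F, ∃ z', Adj z z' ∧ z' ∉ F ∧ z' ∈ cl Q (k + 1) A) : F ⊆ cl Q (k + 1) A := by
  have h : cl F k A ⊆ cl Q (k + 1) A ∩ F := by
    apply cl_min
    · intro y hy hA
      exact Finset.mem_inter.2 ⟨cl_base (hFQ hy) hA, hy⟩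
    · intro y hy hc
      refine Finset.mem_inter.2 ⟨cl_step (hFQ hy) ?_, hy⟩
      obtain ⟨z', h1, h2, h3⟩ := hnb y hy
      have hsub : insert z' (nbrs y ∩ (cl Q (k + 1) A ∩ F)) ⊆ nbrs y ∩ cl Q (k + 1) A := by
        intro w hw
        rcases Finset.mem_insert.1 hw with h | h
        · rw [h]; exact Finset.mem_inter.2 ⟨mem_nbrs.2 h1, h3⟩
        · rw [Finset.mem_inter, Finset.mem_inter] at h
          exact Finset.mem_inter.2 ⟨h.1, h.2.1⟩
      have hnot : z' ∉ nbrs y ∩ (cl Q (k + 1) A ∩ F) := by
        intro h
        rw [Finset.mem_inter, Finset.mem_inter] at h
        exact h2 h.2.2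
      have := Finset.card_le_card hsub
      rw [Finset.card_insert_of_notMem hnot] at this
      omega
  intro z hz
  exact (Finset.mem_inter.1 (h (hF hz))).1

theorem growth {J : Finset (Fin d)} {c : Fin d → ℕ} {N l : ℕ} {A : Finset (Grid d n)}
    (hl : 1 ≤ l) (hfit : ∀ e, c e + wd J N e ≤ n) (hF : Faces J c N l A) (μ : ℕ) :
    ∀ α β : Fin d → ℕ, (∀ e, c e ≤ α e) → (∀ e, β e ≤ c e + wd J N e) →
      (∀ e, α e + wd J l e ≤ β e) →
      (∀ y : Grid d n, (∀ e, α e ≤ (y e : ℕ) ∧ (y e : ℕ) < β e) →
        y ∈ cl (cube J c N) J.card A) →
      (∑ e, ((c e + wd J N e - β e) + (α e - c e)) ≤ μ) → Span J c N A := by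
  induction μ with
  | zero =>
    intro α β h1 h2 h3 h4 h5
    have h6 : ∀ e, (c e + wd J N e - β e) + (α e - c e) = 0 := by
      intro e
      have := Finset.single_le_sum (f := fun e => (c e + wd J N e - β e) + (α e - c e))
        (fun _ _ => Nat.zero_le _) (Finset.mem_univ e)
      omega
    intro y hy
    apply h4
    intro e
    have a1 := mem_cube.1 hy e
    have a2 := h6 e
    have a3 := h1 e
    have a4 := h2 e
    omega
  | succ μ ih =>
    intro α β h1 h2 h3 h4 h5
    by_cases hfull : ∀ e, c e + wd J N e ≤ β e ∧ α e ≤ c e
    · intro y hy
      apply h4
      intro e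
      have a1 := mem_cube.1 hy e
      have a2 := hfull e
      omega
    · push Not at hfull
      obtain ⟨e, he⟩ := hfull
      have hwl := wd_pos (J := J) hl
      have heJ : e ∈ J := by
        by_contra hn
        have a1 := h1 e
        have a2 := h2 e
        have a3 := h3 e
        rw [wd_not hn] at a2 a3 he
        have := he (by omega)
        omega
      have hcard : (J.erase e).card + 1 = J.card := Finset.card_erase_add_one heJ
      have hwe : ∀ e', e' ≠ e → wd (J.erase e) l e' = wd J l e' := by
        intro e' he'
        unfold wd
        by_cases h : e' ∈ J
        · rw [if_pos h, if_pos (Finset.mem_erase.2 ⟨he', h⟩)]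
        · rw [if_neg h, if_neg (fun h' => h (Finset.mem_of_mem_erase h'))]
      have hwee : wd (J.erase e) l e = 1 := wd_not (Finset.notMem_erase e J)
      -- filling one layer
      have layer : ∀ b b' : ℕ, (b' + 1 = b ∨ b + 1 = b') → c e ≤ b → b < c e + wd J N e →
          α e ≤ b' → b' < β e → ∀ y : Grid d n, (y e : ℕ) = b →
          (∀ e', e' ≠ e → α e' ≤ (y e' : ℕ) ∧ (y e' : ℕ) < β e') →
          y ∈ cl (cube J c N) J.card A := by
        intro b b' hbb hb1 hb2 hb3 hb4 y hyb hy
        set c' : Fin d → ℕ := fun e' => if e' = e then b else min (y e' : ℕ) (β e' - wd J l e')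
          with hc'
        have hc'e : c' e = b := by simp [hc']
        have hc'ne : ∀ e', e' ≠ e → c' e' = min (y e' : ℕ) (β e' - wd J l e') := by
          intro e' he'; simp [hc', he']
        have hc'n : ∀ e', c' e' < n := by
          intro e'
          by_cases he' : e' = e
          · rw [he', hc'e]
            have := hfit e
            omega
          · rw [hc'ne e' he']
            have := (y e').2
            omega
        set y0 : Grid d n := fun e' => ⟨c' e', hc'n e'⟩ with hy0
        have hspan := hF e heJ y0 (by
          intro e'
          simp only [hy0]
          by_cases he' : e' = e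
          · rw [he', hc'e, hwee]; omega
          · rw [hc'ne e' he', hwe e' he']
            have a1 := h1 e'
            have a2 := h2 e'
            have a3 := h3 e'
            have a4 := hy e' he'
            omega)
        have hmemF : ∀ z : Grid d n,
            z ∈ (cube (J.erase e) (fun e' => (y0 e' : ℕ)) l : Finset (Grid d n)) →
            (z e : ℕ) = b ∧ ∀ e', e' ≠ e → α e' ≤ (z e' : ℕ) ∧ (z e' : ℕ) < β e' := by
          intro z hz
          rw [mem_cube] at hz
          refine ⟨?_, ?_⟩
          · have := hz e
            simp only [hy0] at this
            rw [hc'e, hwee] at this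
            omega
          · intro e' he'
            have := hz e'
            simp only [hy0] at this
            rw [hc'ne e' he', hwe e' he'] at this
            have a3 := h3 e'
            have a4 := hy e' he'
            omega
        have hfill : (cube (J.erase e) (fun e' => (y0 e' : ℕ)) l : Finset (Grid d n)) ⊆
            cl (cube J c N) ((J.erase e).card + 1) A := by
          apply face_fill _ hspan
          · intro z hz
            obtain ⟨hz1, hz2⟩ := hmemF z hz
            have hb'n : b' < n := by
              have := hfit e
              have := h2 e
              omega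
            refine ⟨Function.update z e ⟨b', hb'n⟩, ?_, ?_, ?_⟩
            · refine ⟨e, ?_, ?_⟩
              · simp only [Function.update_self]
                omega
              · intro e' he'
                rw [Function.update_of_ne he']
            · intro hmem
              have := (hmemF _ hmem).1
              simp only [Function.update_self] at this
              omega
            · rw [hcard]
              apply h4
              intro e'
              by_cases he' : e' = e
              · subst he'
                simp only [Function.update_self]
                omega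
              · rw [Function.update_of_ne he']
                exact hz2 e' he'
          · intro z hz
            obtain ⟨hz1, hz2⟩ := hmemF z hz
            rw [mem_cube]
            intro e'
            by_cases he' : e' = e
            · subst he'; omega
            · have a1 := h1 e'
              have a2 := h2 e'
              have a4 := hz2 e' he'
              omega
        rw [hcard] at hfill
        apply hfill
        rw [mem_cube]
        intro e'
        simp only [hy0]
        by_cases he' : e' = e
        · subst he'
          rw [hc'e, hwee]; omega
        · rw [hc'ne e' he', hwe e' he']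
          have a3 := h3 e'
          have a4 := hy e' he'
          have a5 := hwl e'
          omega
      by_cases hb : c e + wd J N e ≤ β e
      · -- extend downwards
        have hα : c e < α e := he hb
        apply ih (Function.update α e (α e - 1)) β
        · intro e'
          by_cases he' : e' = e
          · subst he'; rw [Function.update_self]; omega
          · rw [Function.update_of_ne he']; exact h1 e'
        · exact h2
        · intro e'
          by_cases he' : e' = e
          · subst he'; rw [Function.update_self]; have := h3 e'; omega
          · rw [Function.update_of_ne he']; exact h3 e'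
        · intro y hy
          have hye := hy e
          rw [Function.update_self] at hye
          have hyne : ∀ e', e' ≠ e → α e' ≤ (y e' : ℕ) ∧ (y e' : ℕ) < β e' := by
            intro e' he'
            have := hy e'
            rw [Function.update_of_ne he'] at this
            exact this
          rcases Nat.lt_or_ge (y e : ℕ) (α e) with h | h
          · have a1 := h1 e
            have a2 := h2 e
            have a3 := h3 e
            have a4 := hwl e
            exact layer (α e - 1) (α e) (by omega) (by omega) (by omega) (by omega) (by omega) y
              (by omega) hyne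
          · apply h4
            intro e'
            by_cases he' : e' = e
            · subst he'; omega
            · exact hyne e' he'
        · have hlt : ∑ e', ((c e' + wd J N e' - β e') + (Function.update α e (α e - 1) e' - c e'))
              < ∑ e', ((c e' + wd J N e' - β e') + (α e' - c e')) := by
            apply Finset.sum_lt_sum
            · intro e' _
              by_cases he' : e' = e
              · subst he'; rw [Function.update_self]; omega
              · rw [Function.update_of_ne he']
            · refine ⟨e, Finset.mem_univ _, ?_⟩
              rw [Function.update_self]; omega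
          omega
      · -- extend upwards
        push Not at hb
        apply ih α (Function.update β e (β e + 1))
        · exact h1
        · intro e'
          by_cases he' : e' = e
          · subst he'; rw [Function.update_self]; omega
          · rw [Function.update_of_ne he']; exact h2 e'
        · intro e'
          by_cases he' : e' = e
          · subst he'; rw [Function.update_self]; have := h3 e'; omega
          · rw [Function.update_of_ne he']; exact h3 e'
        · intro y hy
          have hye := hy e
          rw [Function.update_self] at hye
          have hyne : ∀ e', e' ≠ e → α e' ≤ (y e' : ℕ) ∧ (y e' : ℕ) < β e' := by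
            intro e' he'
            have := hy e'
            rw [Function.update_of_ne he'] at this
            exact this
          rcases Nat.lt_or_ge (y e : ℕ) (β e) with h | h
          · apply h4
            intro e'
            by_cases he' : e' = e
            · subst he'; omega
            · exact hyne e' he'
          · have a1 := h1 e
            have a2 := h2 e
            have a3 := h3 e
            have a4 := hwl e
            exact layer (β e) (β e - 1) (by omega) (by omega) (by omega) (by omega) (by omega) y
              (by omega) hyne
        · have hlt : ∑ e', ((c e' + wd J N e' - Function.update β e (β e + 1) e') + (α e' - c e'))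
              < ∑ e', ((c e' + wd J N e' - β e') + (α e' - c e')) := by
            apply Finset.sum_lt_sum
            · intro e' _
              by_cases he' : e' = e
              · subst he'; rw [Function.update_self]; omega
              · rw [Function.update_of_ne he']
            · refine ⟨e, Finset.mem_univ _, ?_⟩
              rw [Function.update_self]; omega
          omega

/-- if the cube at `c0` of side `l` is spanned and all faces of side `l` are spanned, then the big
cube is spanned -/
theorem span_of_sub {J : Finset (Fin d)} {c c0 : Fin d → ℕ} {N l : ℕ} {A : Finset (Grid d n)}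
    (hl : 1 ≤ l) (hfit : ∀ e, c e + wd J N e ≤ n) (hF : Faces J c N l A)
    (h1 : ∀ e, c e ≤ c0 e) (h2 : ∀ e, c0 e + wd J l e ≤ c e + wd J N e)
    (h : Span J c0 l A) : Span J c N A := by
  apply growth hl hfit hF _ c0 (fun e => c0 e + wd J l e) h1 h2 (fun e => le_refl _) _ (le_refl _)
  intro y hy
  have hy' : y ∈ (cube J c0 l : Finset (Grid d n)) := mem_cube.2 hy
  have hsub : (cube J c0 l : Finset (Grid d n)) ⊆ cube J c N := by
    intro z hz
    rw [mem_cube] at hz ⊢
    intro e
    have a1 := hz e
    have a2 := h1 e
    have a3 := h2 e
    omega
  exact cl_mono hsub le_rfl (fun _ _ hx => hx) (h hy')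

end Pool.Agent.Helper91.BP
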