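import Pool.Agent.Helper91.BP.Recur

/-! The lower bound. -/

namespace Pool.Agent.Helper91.BP
open Finset Classical

set_option linter.unusedSectionVars false

theorem Pr_subset {V : Type*} [Fintype V] [DecidableEq V] (p : ℝ) (D : Finset V) :
    Pr p (fun A => D ⊆ A) = p ^ D.card := by
  have h := sum_prod (V := V) p (fun _ => 1) (fun v => if v ∈ D then 0 else 1)
  have h1 : Pr p (fun A => D ⊆ A) = ∑ A : Finset V, wt p A * ((∏ v ∈ A, (1 : ℝ)) *
      (∏ v ∈ Aᶜ, (if v ∈ D then (0 : ℝ) else 1))) := by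
    unfold Pr
    apply Finset.sum_congr rfl
    intro A _
    rw [Finset.prod_const_one, one_mul]
    by_cases hD : D ⊆ A
    · rw [if_pos hD]
      have : ∏ v ∈ Aᶜ, (if v ∈ D then (0 : ℝ) else 1) = 1 := by
        apply Finset.prod_eq_one
        intro v hv
        rw [if_neg]
        intro h
        exact (Finset.mem_compl.1 hv) (hD h)
      rw [this, mul_one]
    · rw [if_neg hD]
      obtain ⟨v, hv1, hv2⟩ := Finset.not_subset.1 hD
      have : ∏ v ∈ Aᶜ, (if v ∈ D then (0 : ℝ) else 1) = 0 := by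
        apply Finset.prod_eq_zero (i := v) (Finset.mem_compl.2 hv2)
        rw [if_pos hv1]
      rw [this, mul_zero]
  rw [h1, h]
  have h2 : ∀ v : V, p * 1 + (1 - p) * (if v ∈ D then (0 : ℝ) else 1) = if v ∈ D then p else 1 := by
    intro v
    split_ifs <;> ring
  simp_rw [h2]
  rw [Finset.prod_ite_mem, Finset.univ_inter, Finset.prod_const]

theorem T_pos (k : ℕ) : 1 ≤ T k := by
  induction k with
  | zero => exact le_refl 1
  | succ k _ => exact Nat.one_le_two_pow

theorem T_lt (k : ℕ) : T k < T (k + 1) := by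
  simp only [T]
  exact Nat.lt_two_pow_self

theorem T_mono {a b : ℕ} (h : a ≤ b) : T a ≤ T b := by
  induction b, h using Nat.le_induction with
  | base => exact le_refl _
  | succ b _ ih => exact le_trans ih (T_lt b).le

theorem T_three : T 3 = 16 := by
  simp [T]

theorem sq_le_two_pow (z : ℕ) (hz : 32 ≤ z) : (32 * (z + 1)) ^ 2 ≤ 2 ^ z := by
  induction z, hz using Nat.le_induction with
  | base => norm_num
  | succ z hz ih =>
    rw [pow_succ 2 z]
    nlinarith

theorem y_bounds {y : ℕ} (hy : 1024 ≤ y) : y ^ 2 ≤ 2 ^ (y / 32) := by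
  have h1 := sq_le_two_pow (y / 32) (by omega)
  have h2 : y ≤ 32 * (y / 32 + 1) := by omega
  calc y ^ 2 ≤ (32 * (y / 32 + 1)) ^ 2 := Nat.pow_le_pow_left h2 2
    _ ≤ _ := h1

/-- inductive claim -/
def Claim (d n : ℕ) (p : ℝ) (t s0 i : ℕ) : Prop :=
  ∃ y w : ℕ, 64 * T (i + 3) ≤ y ∧ d ≤ y ∧ 1 ≤ w ∧ w + 3 ≤ y ^ 2 ∧
    (∀ L : Finset (Grid d n), Small (y ^ 4) L →
      Pr p (fun A => Ext (cl L (s0 + i) (B0 t A)) w) ≤ 1 / 4) ∧
    (n ≤ y ^ 4 → Pr p (fun A : Finset (Grid d n) => Percolates d A) < 1 / 2)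

theorem claim_step {d n : ℕ} {p : ℝ} (hd : 1 ≤ d) (hn : 2 ≤ n) (h0 : 0 ≤ p) (h1 : p ≤ 1)
    {t s0 i : ℕ} (hst : s0 + (i + 1) + t ≤ d) (h : Claim d n p t s0 i) :
    Claim d n p t s0 (i + 1) := by
  obtain ⟨y, w, hT, hdy, hw, hwy, hgood, hperc⟩ := h
  have hT3 : 16 ≤ T (i + 3) := by
    rw [← T_three]; exact T_mono (by omega)
  have hy : 1024 ≤ y := by omega
  have hyb := y_bounds hy
  set k := y ^ 2 / 2 with hk
  have hk2 : 2 * k ≤ y ^ 2 := by omega
  have hk3 : y ^ 2 ≤ 4 * k := by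
    have : 1 ≤ y ^ 2 / 2 := by
      have : 1024 ^ 2 ≤ y ^ 2 := Nat.pow_le_pow_left hy 2
      omega
    omega
  have hky : y + 2 ≤ k := by nlinarith
  set y' := 2 ^ (y / 32) with hy'
  have hwk : 1 ≤ (w + 3) * k := by nlinarith
  set j := (w + 3) * k - 1 with hj
  have hj1 : j + 1 = (w + 3) * k := by omega
  have hwkle : 2 * ((w + 3) * k) ≤ y ^ 4 := by
    calc 2 * ((w + 3) * k) = (w + 3) * (2 * k) := by ring
      _ ≤ y ^ 2 * y ^ 2 := Nat.mul_le_mul hwy hk2
      _ = y ^ 4 := by ring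
  have hm : 2 * j + 1 ≤ y ^ 4 := by omega
  have hgood' : ∀ L : Finset (Grid d n), Small (y' ^ 4) L →
      Pr p (fun A => Ext (cl L (s0 + (i + 1)) (B0 t A)) j) ≤ 1 / 4 := by
    intro L hL
    have hr := recur h0 h1 hgood hw (by omega) hj1 hm L
    refine le_trans hr ?_
    have hcard := hL.card
    have hexp : (y / 32) * 8 * d ≤ k := by
      have e1 : (y / 32) * 8 * d ≤ (y / 32) * 8 * y := Nat.mul_le_mul_left _ hdy
      have e2 : (y / 32) * 32 ≤ y := Nat.div_mul_le_self y 32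
      have e3 : 4 * ((y / 32) * 8 * y) ≤ y ^ 2 := by nlinarith
      omega
    have hsq : L.card * L.card ≤ 2 ^ k := by
      calc L.card * L.card ≤ (y' ^ 4) ^ d * (y' ^ 4) ^ d := Nat.mul_le_mul hcard hcard
        _ = 2 ^ ((y / 32) * 8 * d) := by
            rw [hy', ← pow_mul, ← pow_mul, ← pow_add]
            congr 1
            ring
        _ ≤ 2 ^ k := Nat.pow_le_pow_right (by norm_num) hexp
    have h4d : 4 * d ≤ 2 ^ k := by
      calc 4 * d ≤ 4 * y := by omega
        _ ≤ 2 ^ 2 * 2 ^ y := by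
            have := (Nat.lt_two_pow_self (n := y)).le
            omega
        _ = 2 ^ (y + 2) := by rw [pow_add, mul_comm]
        _ ≤ 2 ^ k := Nat.pow_le_pow_right (by norm_num) hky
    have hnat : L.card * L.card * (4 * d) ≤ 4 ^ k := by
      calc L.card * L.card * (4 * d) ≤ 2 ^ k * 2 ^ k := Nat.mul_le_mul hsq h4d
        _ = 4 ^ k := by rw [← mul_pow]; norm_num
    have hreal : (L.card : ℝ) * (L.card : ℝ) * (4 * (d : ℝ)) ≤ 4 ^ k := by exact_mod_cast hnat
    have hpos : (0 : ℝ) < 4 ^ k := by positivity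
    have : (1 / 4 : ℝ) ^ k = 1 / 4 ^ k := by rw [div_pow, one_pow]
    rw [this]
    have e : (L.card : ℝ) * ((L.card : ℝ) * ((d : ℝ) * (1 / 4 ^ k)))
        = ((L.card : ℝ) * (L.card : ℝ) * (4 * (d : ℝ))) / (4 * 4 ^ k) := by
      field_simp
    rw [e, div_le_div_iff₀ (by positivity) (by norm_num)]
    nlinarith
  have hyy' : y ≤ y' := by
    calc y ≤ y ^ 2 := by nlinarith
      _ ≤ _ := hyb
  refine ⟨y', j, ?_, by omega, ?_, ?_, hgood', ?_⟩
  · have h2T : 2 * T (i + 3) ≤ y / 32 := by omega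
    have e1 : T (i + 1 + 3) = 2 ^ T (i + 3) := rfl
    rw [e1]
    calc 64 * 2 ^ T (i + 3) = 2 ^ 6 * 2 ^ T (i + 3) := by norm_num
      _ = 2 ^ (6 + T (i + 3)) := by rw [pow_add]
      _ ≤ 2 ^ (y / 32) := Nat.pow_le_pow_right (by norm_num) (by omega)
  · have : 2 ≤ (w + 3) * k := by nlinarith
    omega
  · have e0 : y ≤ y ^ 4 := Nat.le_self_pow (by norm_num) y
    have e1 : j + 3 ≤ y ^ 4 := by omega
    calc j + 3 ≤ y ^ 4 := e1
      _ = (y ^ 2) ^ 2 := by ring
      _ ≤ y' ^ 2 := Nat.pow_le_pow_left hyb 2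
  · intro hny
    by_cases hn4 : n ≤ y ^ 4
    · exact hperc hn4
    · have hle : Pr p (fun A : Finset (Grid d n) => Percolates d A) ≤
          Pr p (fun A : Finset (Grid d n) => Ext (cl Finset.univ (s0 + (i + 1)) (B0 t A)) j) := by
        apply Pr_mono h0 h1
        intro A hA
        rw [perc_B0 hn hst hA]
        exact univ_ext hd (by omega)
      have hs : Small (y' ^ 4) (Finset.univ : Finset (Grid d n)) := by
        intro x _ z _ e
        have := (x e).2
        omega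
      have := hgood' Finset.univ hs
      linarith

theorem claim_base {d n : ℕ} {p : ℝ} (hd : 1024 ≤ d) (hn : 2 ≤ n) (h0 : 0 ≤ p)
    (h1 : p ≤ 13 / 50) {t s0 : ℕ} (hst : s0 + t ≤ d)
    (N1 : ((d : ℝ) ^ 4) ^ d * (4 ^ d * rho d t ^ s0) ≤ 1 / 8)
    (N2 : ((d : ℝ) ^ 4) ^ d * ((36 * (d : ℝ) ^ 4) ^ d * rho d t ^ (d + 1)) ≤ 1 / 8)
    (N3 : rho d t ≤ 1 / 8) : Claim d n p t s0 0 := by
  have hp1 : p ≤ 1 := by linarith
  have hrho := rho_pos d t
  have hcardR : ∀ L : Finset (Grid d n), Small (d ^ 4) L → (L.card : ℝ) ≤ ((d : ℝ) ^ 4) ^ d := by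
    intro L hL
    exact_mod_cast hL.card
  refine ⟨d, 4 * d, ?_, le_refl d, by omega, by nlinarith, ?_, ?_⟩
  · show 64 * T 3 ≤ d
    rw [T_three]; omega
  · intro L hL
    have hb := base_prob h0 h1 (by omega) L s0 d t (by omega)
    have hc := hcardR L hL
    have e1 : (L.card : ℝ) * (4 ^ d * rho d t ^ s0) ≤ 1 / 8 :=
      le_trans (mul_le_mul_of_nonneg_right hc (by positivity)) N1
    have e2 : (L.card : ℝ) * ((36 * (d : ℝ) ^ 4) ^ d * rho d t ^ (d + 1)) ≤ 1 / 8 :=
      le_trans (mul_le_mul_of_nonneg_right hc (by positivity)) N2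
    rw [Nat.add_zero]
    linarith
  · intro hn4
    have hx0 : 0 < n := by omega
    set x0 : Grid d n := fun _ => ⟨0, hx0⟩ with hx0d
    have hle : Pr p (fun A : Finset (Grid d n) => Percolates d A) ≤
        Pr p (fun A => (∃ x ∈ (Finset.univ : Finset (Grid d n)), s0 ≤ (nbrs x ∩ B0 t A).card) ∨
          ({x0} : Finset (Grid d n)) ⊆ B0 t A) := by
      apply Pr_mono h0 hp1
      intro A hA
      by_cases hx : ∃ x ∈ (Finset.univ : Finset (Grid d n)), s0 ≤ (nbrs x ∩ B0 t A).card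
      · exact Or.inl hx
      · right
        have hcl : cl Finset.univ s0 (B0 t A) ⊆ B0 t A := by
          apply cl_min
          · intro y _ hyB
            exact hyB
          · intro y hy hc
            exact absurd ⟨y, hy, hc⟩ hx
        rw [perc_B0 hn hst hA] at hcl
        exact Finset.singleton_subset_iff.2 (hcl (Finset.mem_univ _))
    have hs : Small (d ^ 4) (Finset.univ : Finset (Grid d n)) := by
      intro x _ z _ e
      have := (x e).2
      omega
    have hm := many_prob h0 h1 (Finset.univ : Finset (Grid d n)) s0 t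
    have hc := hcardR Finset.univ hs
    have e1 : ((Finset.univ : Finset (Grid d n)).card : ℝ) * (4 ^ d * rho d t ^ s0) ≤ 1 / 8 :=
      le_trans (mul_le_mul_of_nonneg_right hc (by positivity)) N1
    have e2 : Pr p (fun A => ({x0} : Finset (Grid d n)) ⊆ B0 t A) ≤ 1 / 8 := by
      have := B0_prob' h0 h1 ({x0} : Finset (Grid d n)) x0 (by
        intro z _
        refine le_trans (Finset.card_le_card Finset.inter_subset_right) ?_
        simp) t
      rw [Finset.card_singleton, pow_one] at this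
      linarith
    have e3 := Pr_or_le h0 hp1
      (fun A => ∃ x ∈ (Finset.univ : Finset (Grid d n)), s0 ≤ (nbrs x ∩ B0 t A).card)
      (fun A => ({x0} : Finset (Grid d n)) ⊆ B0 t A)
    linarith

theorem numeric : ∀ᶠ d : ℕ in Filter.atTop,
    10000 ≤ d ∧ 36 * (d : ℝ) ^ 4 ≤ Real.exp ((d : ℝ) / 4000) := by
  have h1 : (fun x : ℝ => x ^ 4) =o[Filter.atTop] fun x => Real.exp (1 / 4000 * x) :=
    isLittleO_pow_exp_pos_mul_atTop 4 (by norm_num)
  have h2 := h1.def (c := 1 / 36) (by norm_num)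
  have h3 := tendsto_natCast_atTop_atTop (R := ℝ) |>.eventually h2
  filter_upwards [h3, Filter.eventually_ge_atTop 10000] with d hd1 hd2
  refine ⟨hd2, ?_⟩
  rw [Real.norm_of_nonneg (by positivity), Real.norm_of_nonneg (Real.exp_pos _).le] at hd1
  have : Real.exp (1 / 4000 * (d : ℝ)) = Real.exp ((d : ℝ) / 4000) := by
    congr 1; ring
  rw [this] at hd1
  linarith

theorem exp_neg_three : Real.exp (-3) ≤ 1 / 8 := by
  have h := Real.add_one_le_exp (1 : ℝ)
  have h2 : Real.exp 3 = Real.exp 1 ^ 3 := by rw [← Real.exp_nat_mul]; norm_num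
  have h3 : (8 : ℝ) ≤ Real.exp 3 := by
    rw [h2]
    have : (2 : ℝ) ^ 3 ≤ Real.exp 1 ^ 3 := pow_le_pow_left₀ (by norm_num) (by linarith) 3
    linarith
  rw [Real.exp_neg, inv_eq_one_div]
  exact one_div_le_one_div_of_le (by norm_num) h3

theorem numeric_bounds {d : ℕ} (hd : 10000 ≤ d)
    (h36 : 36 * (d : ℝ) ^ 4 ≤ Real.exp ((d : ℝ) / 4000)) {t s0 : ℕ}
    (ht : 3 * d ≤ 4 * t) (hs : d ≤ 8 * s0 + 8) :
    ((d : ℝ) ^ 4) ^ d * (4 ^ d * rho d t ^ s0) ≤ 1 / 8 ∧
    ((d : ℝ) ^ 4) ^ d * ((36 * (d : ℝ) ^ 4) ^ d * rho d t ^ (d + 1)) ≤ 1 / 8 ∧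
    rho d t ≤ 1 / 8 := by
  have hdR : (10000 : ℝ) ≤ (d : ℝ) := by exact_mod_cast hd
  have htR : 3 * (d : ℝ) ≤ 4 * (t : ℝ) := by exact_mod_cast ht
  have hsR : (d : ℝ) ≤ 8 * (s0 : ℝ) + 8 := by exact_mod_cast hs
  have hrho : rho d t ≤ Real.exp (-((d : ℝ) / 100)) := by
    unfold rho
    apply Real.exp_le_exp.2
    linarith
  have hr0 := rho_pos d t
  have hd4 : (0 : ℝ) ≤ (d : ℝ) ^ 4 := by positivity
  have hd4' : (10000 : ℝ) ^ 4 ≤ (d : ℝ) ^ 4 := pow_le_pow_left₀ (by norm_num) hdR 4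
  have hA : (d : ℝ) ^ 4 ≤ Real.exp ((d : ℝ) / 4000) := by linarith
  have hB : (4 : ℝ) ≤ Real.exp ((d : ℝ) / 4000) := by
    have : (4 : ℝ) ≤ 36 * (10000 : ℝ) ^ 4 := by norm_num
    linarith
  have hApow : ((d : ℝ) ^ 4) ^ d ≤ Real.exp ((d : ℝ) * ((d : ℝ) / 4000)) := by
    rw [Real.exp_nat_mul]
    exact pow_le_pow_left₀ hd4 hA d
  have hBpow : (4 : ℝ) ^ d ≤ Real.exp ((d : ℝ) * ((d : ℝ) / 4000)) := by
    rw [Real.exp_nat_mul]
    exact pow_le_pow_left₀ (by norm_num) hB d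
  have hCpow : (36 * (d : ℝ) ^ 4) ^ d ≤ Real.exp ((d : ℝ) * ((d : ℝ) / 4000)) := by
    rw [Real.exp_nat_mul]
    exact pow_le_pow_left₀ (by positivity) h36 d
  have hR1 : rho d t ^ s0 ≤ Real.exp ((s0 : ℝ) * (-((d : ℝ) / 100))) := by
    rw [Real.exp_nat_mul]
    exact pow_le_pow_left₀ hr0.le hrho s0
  have hR2 : rho d t ^ (d + 1) ≤ Real.exp (((d + 1 : ℕ) : ℝ) * (-((d : ℝ) / 100))) := by
    rw [Real.exp_nat_mul]
    exact pow_le_pow_left₀ hr0.le hrho (d + 1)
  refine ⟨?_, ?_, ?_⟩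
  · calc ((d : ℝ) ^ 4) ^ d * (4 ^ d * rho d t ^ s0)
        ≤ Real.exp ((d : ℝ) * ((d : ℝ) / 4000)) * (Real.exp ((d : ℝ) * ((d : ℝ) / 4000)) *
          Real.exp ((s0 : ℝ) * (-((d : ℝ) / 100)))) := by
          apply mul_le_mul hApow _ (by positivity) (Real.exp_pos _).le
          exact mul_le_mul hBpow hR1 (by positivity) (Real.exp_pos _).le
      _ = Real.exp ((d : ℝ) * ((d : ℝ) / 4000) + ((d : ℝ) * ((d : ℝ) / 4000) +
            (s0 : ℝ) * (-((d : ℝ) / 100)))) := by
          rw [← Real.exp_add, ← Real.exp_add]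
      _ ≤ Real.exp (-3) := by
          apply Real.exp_le_exp.2
          nlinarith
      _ ≤ 1 / 8 := exp_neg_three
  · calc ((d : ℝ) ^ 4) ^ d * ((36 * (d : ℝ) ^ 4) ^ d * rho d t ^ (d + 1))
        ≤ Real.exp ((d : ℝ) * ((d : ℝ) / 4000)) * (Real.exp ((d : ℝ) * ((d : ℝ) / 4000)) *
          Real.exp (((d + 1 : ℕ) : ℝ) * (-((d : ℝ) / 100)))) := by
          apply mul_le_mul hApow _ (by positivity) (Real.exp_pos _).le
          exact mul_le_mul hCpow hR2 (by positivity) (Real.exp_pos _).le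
      _ = Real.exp ((d : ℝ) * ((d : ℝ) / 4000) + ((d : ℝ) * ((d : ℝ) / 4000) +
            ((d + 1 : ℕ) : ℝ) * (-((d : ℝ) / 100)))) := by
          rw [← Real.exp_add, ← Real.exp_add]
      _ ≤ Real.exp (-3) := by
          apply Real.exp_le_exp.2
          push_cast
          nlinarith
      _ ≤ 1 / 8 := exp_neg_three
  · calc rho d t ≤ Real.exp (-((d : ℝ) / 100)) := hrho
      _ ≤ Real.exp (-3) := by
          apply Real.exp_le_exp.2
          linarith
      _ ≤ 1 / 8 := exp_neg_three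

/-- the lower bound: no percolation at scale `n ≤ T (d/8)` for every `p ≤ 13/50` -/
theorem lower : ∃ d0 : ℕ, ∀ d, d0 ≤ d → ∀ n, 1 ≤ n → n ≤ T (d / 8) → ∀ p : ℝ, 0 ≤ p →
    p ≤ 13 / 50 → Pr p (fun A : Finset (Grid d n) => Percolates d A) < 1 / 2 := by
  obtain ⟨d0, hd0⟩ := Filter.eventually_atTop.1 numeric
  refine ⟨d0, ?_⟩
  intro d hd n hn hnT p h0 h1
  obtain ⟨hd1, h36⟩ := hd0 d hd
  have hp1 : p ≤ 1 := by linarith
  rcases Nat.lt_or_ge n 2 with hn2 | hn2
  · have hn1 : n = 1 := by omega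
    subst hn1
    set x0 : Grid d 1 := fun _ => 0 with hx0
    have hle : Pr p (fun A : Finset (Grid d 1) => Percolates d A) ≤
        Pr p (fun A : Finset (Grid d 1) => ({x0} : Finset (Grid d 1)) ⊆ A) := by
      apply Pr_mono h0 hp1
      intro A hA
      have hcl : cl (Finset.univ : Finset (Grid d 1)) d A ⊆ A := by
        apply cl_min
        · intro y _ h; exact h
        · intro y _ hc
          exfalso
          have : nbrs y = ∅ := by
            apply Finset.eq_empty_of_forall_notMem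
            intro z hz
            obtain ⟨e, he, _⟩ := mem_nbrs.1 hz
            have a1 := (y e).2
            have a2 := (z e).2
            omega
          rw [this, Finset.empty_inter, Finset.card_empty] at hc
          omega
      rw [(perc_iff d A).1 hA] at hcl
      exact Finset.singleton_subset_iff.2 (hcl (Finset.mem_univ _))
    rw [Pr_subset, Finset.card_singleton, pow_one] at hle
    linarith
  · set t := d - d / 4 with ht
    set s0 := d / 4 - d / 8 with hs0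
    obtain ⟨N1, N2, N3⟩ := numeric_bounds hd1 h36 (t := t) (s0 := s0) (by omega) (by omega)
    have hbase := claim_base (n := n) (by omega) hn2 h0 h1 (t := t) (s0 := s0) (by omega)
      N1 N2 N3
    have hall : ∀ i, i ≤ d / 8 → Claim d n p t s0 i := by
      intro i
      induction i with
      | zero => intro _; exact hbase
      | succ i ih =>
        intro hi
        exact claim_step (by omega) hn2 h0 hp1 (by omega) (ih (by omega))
    obtain ⟨y, w, hT, _, _, _, _, hperc⟩ := hall (d / 8) le_rfl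
    apply hperc
    have e1 : T (d / 8) ≤ T (d / 8 + 3) := T_mono (by omega)
    have e2 : y ≤ y ^ 4 := Nat.le_self_pow (by norm_num) y
    omega

end Pool.Agent.Helper91.BP
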