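import Mathlib

/-! Product measure on finite sets, as finite sums. -/

namespace Pool.Agent.Helper91.BP
open Finset Classical

set_option linter.unusedSectionVars false
set_option linter.unnecessarySeqFocus false

variable {V : Type*} [Fintype V] [DecidableEq V]

/-- weight of the set A under the p-random set -/
noncomputable def wt (p : ℝ) (A : Finset V) : ℝ := p ^ A.card * (1 - p) ^ (Aᶜ).card

/-- probability that the p-random set satisfies E -/
noncomputable def Pr (p : ℝ) (E : Finset V → Prop) : ℝ :=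
  ∑ A : Finset V, if E A then wt p A else 0

theorem wt_nonneg {p : ℝ} (h0 : 0 ≤ p) (h1 : p ≤ 1) (A : Finset V) : 0 ≤ wt p A := by
  unfold wt
  have : 0 ≤ 1 - p := by linarith
  positivity

theorem sum_prod (p : ℝ) (h1 h0 : V → ℝ) :
    ∑ A : Finset V, wt p A * ((∏ v ∈ A, h1 v) * (∏ v ∈ Aᶜ, h0 v))
      = ∏ v : V, (p * h1 v + (1 - p) * h0 v) := by
  rw [Finset.prod_add]
  rw [Finset.powerset_univ]
  apply Finset.sum_congr rfl
  intro A _
  rw [Finset.prod_mul_distrib, Finset.prod_mul_distrib, Finset.prod_const, Finset.prod_const]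
  rw [← Finset.compl_eq_univ_sdiff]
  unfold wt
  ring

theorem sum_wt (p : ℝ) : ∑ A : Finset V, wt p A = 1 := by
  have := sum_prod (V := V) p (fun _ => 1) (fun _ => 1)
  simpa using this

theorem Pr_nonneg {p : ℝ} (h0 : 0 ≤ p) (h1 : p ≤ 1) (E : Finset V → Prop) : 0 ≤ Pr p E := by
  unfold Pr
  apply Finset.sum_nonneg
  intro A _
  split_ifs
  · exact wt_nonneg h0 h1 A
  · exact le_refl 0

theorem Pr_mono {p : ℝ} (h0 : 0 ≤ p) (h1 : p ≤ 1) {E F : Finset V → Prop}
    (h : ∀ A, E A → F A) : Pr p E ≤ Pr p F := by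
  unfold Pr
  apply Finset.sum_le_sum
  intro A _
  by_cases hE : E A
  · simp [hE, h A hE]
  · rw [if_neg hE]
    split_ifs
    · exact wt_nonneg h0 h1 A
    · exact le_refl 0

theorem Pr_congr {p : ℝ} {E F : Finset V → Prop} (h : ∀ A, E A ↔ F A) : Pr p E = Pr p F := by
  unfold Pr
  apply Finset.sum_congr rfl
  intro A _
  by_cases hE : E A
  · simp [hE, (h A).1 hE]
  · have : ¬ F A := fun hF => hE ((h A).2 hF)
    simp [hE, this]

theorem Pr_true (p : ℝ) {E : Finset V → Prop} (h : ∀ A, E A) : Pr p E = 1 := by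
  rw [← sum_wt (V := V) p]
  unfold Pr
  apply Finset.sum_congr rfl
  intro A _
  simp [h A]

theorem Pr_le_one {p : ℝ} (h0 : 0 ≤ p) (h1 : p ≤ 1) (E : Finset V → Prop) : Pr p E ≤ 1 := by
  rw [← Pr_true (V := V) p (E := fun _ => True) (fun _ => trivial)]
  exact Pr_mono h0 h1 (fun _ _ => trivial)

theorem Pr_false (p : ℝ) {E : Finset V → Prop} (h : ∀ A, ¬ E A) : Pr p E = 0 := by
  unfold Pr
  apply Finset.sum_eq_zero
  intro A _
  simp [h A]

theorem Pr_or_le {p : ℝ} (h0 : 0 ≤ p) (h1 : p ≤ 1) (E F : Finset V → Prop) :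
    Pr p (fun A => E A ∨ F A) ≤ Pr p E + Pr p F := by
  unfold Pr
  rw [← Finset.sum_add_distrib]
  apply Finset.sum_le_sum
  intro A _
  have := wt_nonneg h0 h1 A
  by_cases hE : E A <;> by_cases hF : F A <;> simp [hE, hF] <;> linarith

theorem Pr_bUnion_le {p : ℝ} (h0 : 0 ≤ p) (h1 : p ≤ 1) {ι : Type*} (s : Finset ι)
    (E : ι → Finset V → Prop) :
    Pr p (fun A => ∃ i ∈ s, E i A) ≤ ∑ i ∈ s, Pr p (E i) := by
  induction s using Finset.induction_on with
  | empty =>
    rw [Pr_false]
    · simp
    · rintro A ⟨i, hi, _⟩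
      exact absurd hi (Finset.notMem_empty i)
  | insert a s ha ih =>
    rw [Finset.sum_insert ha]
    calc Pr p (fun A => ∃ i ∈ insert a s, E i A)
        ≤ Pr p (fun A => E a A ∨ ∃ i ∈ s, E i A) := by
          apply Pr_mono h0 h1
          rintro A ⟨i, hi, hE⟩
          rcases Finset.mem_insert.1 hi with rfl | hi
          · exact Or.inl hE
          · exact Or.inr ⟨i, hi, hE⟩
      _ ≤ Pr p (E a) + Pr p (fun A => ∃ i ∈ s, E i A) := Pr_or_le h0 h1 _ _
      _ ≤ _ := by linarith

theorem Pr_not (p : ℝ) (E : Finset V → Prop) : Pr p (fun A => ¬ E A) = 1 - Pr p E := by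
  rw [← sum_wt (V := V) p]
  unfold Pr
  rw [← Finset.sum_sub_distrib]
  apply Finset.sum_congr rfl
  intro A _
  by_cases hE : E A <;> simp [hE]

theorem Pr_le_sum {p : ℝ} (h0 : 0 ≤ p) (h1 : p ≤ 1) (E : Finset V → Prop) (g : Finset V → ℝ)
    (hg0 : ∀ A, 0 ≤ g A) (hg : ∀ A, E A → 1 ≤ g A) :
    Pr p E ≤ ∑ A : Finset V, wt p A * g A := by
  unfold Pr
  apply Finset.sum_le_sum
  intro A _
  have hw := wt_nonneg h0 h1 A
  split_ifs with hE
  · have := hg A hE
    nlinarith
  · exact mul_nonneg hw (hg0 A)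

/-- E depends only on the part of A inside T -/
def Dep (T : Finset V) (E : Finset V → Prop) : Prop := ∀ A, E A ↔ E (A ∩ T)

theorem Dep.mono {T U : Finset V} {E : Finset V → Prop} (h : Dep T E) (hTU : T ⊆ U) :
    Dep U E := by
  intro A
  rw [h A, h (A ∩ U)]
  have : A ∩ U ∩ T = A ∩ T := by
    ext x
    simp only [Finset.mem_inter]
    constructor
    · rintro ⟨⟨a, _⟩, c⟩; exact ⟨a, c⟩
    · rintro ⟨a, c⟩; exact ⟨⟨a, hTU c⟩, c⟩
  rw [this]

theorem Dep.congr_inter {T : Finset V} {E : Finset V → Prop} (h : Dep T E) {A A' : Finset V}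
    (hA : A ∩ T = A' ∩ T) : E A ↔ E A' := by
  rw [h A, h A', hA]

/-- swap -/
noncomputable def mixs (T : Finset V) (q : Finset V × Finset V) : Finset V × Finset V :=
  ((q.1 ∩ T) ∪ (q.2 \ T), (q.2 ∩ T) ∪ (q.1 \ T))

theorem mixs_invol (T : Finset V) (q : Finset V × Finset V) : mixs T (mixs T q) = q := by
  unfold mixs
  apply Prod.ext
  · ext x
    simp only [Finset.mem_union, Finset.mem_inter, Finset.mem_sdiff]
    tauto
  · ext x
    simp only [Finset.mem_union, Finset.mem_inter, Finset.mem_sdiff]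
    tauto

theorem card_mixs (T : Finset V) (q : Finset V × Finset V) :
    (mixs T q).1.card + (mixs T q).2.card = q.1.card + q.2.card := by
  unfold mixs
  simp only
  rw [Finset.card_union_of_disjoint, Finset.card_union_of_disjoint]
  · have h1 := Finset.card_inter_add_card_sdiff q.1 T
    have h2 := Finset.card_inter_add_card_sdiff q.2 T
    omega
  · rw [Finset.disjoint_left]
    intro x hx hx'
    exact (Finset.mem_sdiff.1 hx').2 (Finset.mem_inter.1 hx).2
  · rw [Finset.disjoint_left]
    intro x hx hx'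
    exact (Finset.mem_sdiff.1 hx').2 (Finset.mem_inter.1 hx).2

theorem wt_mixs (p : ℝ) (T : Finset V) (q : Finset V × Finset V) :
    wt p (mixs T q).1 * wt p (mixs T q).2 = wt p q.1 * wt p q.2 := by
  have h := card_mixs T q
  have h1 : ((mixs T q).1ᶜ).card + ((mixs T q).2ᶜ).card = (q.1ᶜ).card + (q.2ᶜ).card := by
    have a1 := Finset.card_add_card_compl (mixs T q).1
    have a2 := Finset.card_add_card_compl (mixs T q).2
    have a3 := Finset.card_add_card_compl q.1
    have a4 := Finset.card_add_card_compl q.2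
    omega
  unfold wt
  have e1 : p ^ (mixs T q).1.card * (1 - p) ^ ((mixs T q).1ᶜ).card *
      (p ^ (mixs T q).2.card * (1 - p) ^ ((mixs T q).2ᶜ).card)
      = p ^ ((mixs T q).1.card + (mixs T q).2.card)
        * (1 - p) ^ (((mixs T q).1ᶜ).card + ((mixs T q).2ᶜ).card) := by
    rw [pow_add, pow_add]; ring
  rw [e1, h, h1, pow_add, pow_add]; ring

theorem Pr_indep (p : ℝ) {T U : Finset V} {E F : Finset V → Prop} (hE : Dep T E) (hF : Dep U F)
    (hTU : Disjoint T U) : Pr p (fun A => E A ∧ F A) = Pr p E * Pr p F := by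
  have hF' : Dep Tᶜ F := hF.mono (by
    intro x hx
    rw [Finset.mem_compl]
    intro hx'
    exact (Finset.disjoint_left.1 hTU) hx' hx)
  have h1 : Pr p E * Pr p F
      = ∑ q : Finset V × Finset V, (if E q.1 ∧ F q.2 then wt p q.1 * wt p q.2 else 0) := by
    unfold Pr
    rw [Finset.sum_mul_sum, ← Finset.univ_product_univ, Finset.sum_product]
    apply Finset.sum_congr rfl
    intro A _
    apply Finset.sum_congr rfl
    intro B _
    by_cases a : E A <;> by_cases b : F B <;> simp [a, b]
  have h2 : Pr p (fun A => E A ∧ F A)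
      = ∑ q : Finset V × Finset V, (if E q.1 ∧ F q.1 then wt p q.1 * wt p q.2 else 0) := by
    unfold Pr
    rw [← Finset.univ_product_univ, Finset.sum_product]
    apply Finset.sum_congr rfl
    intro A _
    by_cases a : E A ∧ F A
    · simp only [a, and_self, if_true]
      rw [← Finset.mul_sum, sum_wt, mul_one]
    · simp only [a, if_false, Finset.sum_const_zero]
  rw [h1, h2]
  apply Finset.sum_nbij' (fun q => mixs T q) (fun q => mixs T q)
  · intro q _; exact Finset.mem_univ _
  · intro q _; exact Finset.mem_univ _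
  · intro q _; exact mixs_invol T q
  · intro q _; exact mixs_invol T q
  · intro q _
    rw [wt_mixs]
    have a1 : E (mixs T q).1 ↔ E q.1 := by
      apply hE.congr_inter
      unfold mixs
      ext x
      simp only [Finset.mem_union, Finset.mem_inter, Finset.mem_sdiff]
      tauto
    have a2 : F (mixs T q).2 ↔ F q.1 := by
      apply hF'.congr_inter
      unfold mixs
      ext x
      simp only [Finset.mem_union, Finset.mem_inter, Finset.mem_sdiff, Finset.mem_compl]
      tauto
    by_cases b : E q.1 ∧ F q.1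
    · rw [if_pos b, if_pos ⟨a1.2 b.1, a2.2 b.2⟩]
    · rw [if_neg b, if_neg (fun c => b ⟨a1.1 c.1, a2.1 c.2⟩)]

theorem Pr_prod_le {p : ℝ} (h0 : 0 ≤ p) (h1 : p ≤ 1) {q : ℝ} (hq : 0 ≤ q)
    (T : ℕ → Finset V) (E : ℕ → Finset V → Prop) (k : ℕ)
    (hdep : ∀ l, l < k → Dep (T l) (E l))
    (hdis : ∀ l l', l < l' → l' < k → Disjoint (T l) (T l'))
    (hP : ∀ l, l < k → Pr p (E l) ≤ q) :
    Pr p (fun A => ∀ l, l < k → E l A) ≤ q ^ k := by
  induction k with
  | zero =>
    simp only [pow_zero]
    exact Pr_le_one h0 h1 _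
  | succ k ih =>
    have hih := ih (fun l hl => hdep l (by omega)) (fun l l' h h' => hdis l l' h (by omega))
      (fun l hl => hP l (by omega))
    have hd1 : Dep ((Finset.range k).biUnion T) (fun A => ∀ l, l < k → E l A) := by
      intro A
      constructor
      · intro h l hl
        have := h l hl
        rw [(hdep l (by omega)).congr_inter (A' := A ∩ (Finset.range k).biUnion T)] at this
        · exact this
        · ext x
          simp only [Finset.mem_inter, Finset.mem_biUnion, Finset.mem_range]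
          constructor
          · rintro ⟨a, b⟩; exact ⟨⟨a, l, hl, b⟩, b⟩
          · rintro ⟨⟨a, _⟩, b⟩; exact ⟨a, b⟩
      · intro h l hl
        have := h l hl
        rw [(hdep l (by omega)).congr_inter (A' := A)] at this
        · exact this
        · ext x
          simp only [Finset.mem_inter, Finset.mem_biUnion, Finset.mem_range]
          constructor
          · rintro ⟨⟨a, _⟩, b⟩; exact ⟨a, b⟩
          · rintro ⟨a, b⟩; exact ⟨⟨a, l, hl, b⟩, b⟩
    have hind := Pr_indep p hd1 (hdep k (by omega)) (by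
      rw [Finset.disjoint_left]
      intro x hx hx'
      obtain ⟨l, hl, hxl⟩ := Finset.mem_biUnion.1 hx
      have hl' := Finset.mem_range.1 hl
      exact (Finset.disjoint_left.1 (hdis l k hl' (by omega))) hxl hx')
    have hc : Pr p (fun A => ∀ l, l < k + 1 → E l A)
        = Pr p (fun A => (∀ l, l < k → E l A) ∧ E k A) := by
      apply Pr_congr
      intro A
      constructor
      · intro h
        exact ⟨fun l hl => h l (by omega), h k (by omega)⟩
      · rintro ⟨a, b⟩ l hl
        rcases Nat.lt_or_ge l k with h | h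
        · exact a l h
        · have : l = k := by omega
          rw [this]; exact b
    rw [hc, hind, pow_succ]
    exact mul_le_mul hih (hP k (by omega)) (Pr_nonneg h0 h1 _) (pow_nonneg hq k)

end Pool.Agent.Helper91.BP
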