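import Pool.Agent.Helper91.BP.Chain

/-! The recursion over scales. -/

namespace Pool.Agent.Helper91.BP
open Finset Classical

set_option linter.unusedSectionVars false
variable {d n : ℕ}

/-- all sides at most `m` -/
def Small (m : ℕ) (L : Finset (Grid d n)) : Prop :=
  ∀ x ∈ L, ∀ y ∈ L, ∀ e, (x e : ℕ) < (y e : ℕ) + m

theorem Small.mono {m : ℕ} {L L' : Finset (Grid d n)} (h : Small m L) (hL : L' ⊆ L) :
    Small m L' := fun x hx y hy e => h x (hL hx) y (hL hy) e

theorem Small.card {m : ℕ} {L : Finset (Grid d n)} (h : Small m L) : L.card ≤ m ^ d := by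
  have hsub : L ⊆ Fintype.piFinset (fun e => L.image (fun y => y e)) := by
    intro y hy
    rw [Fintype.mem_piFinset]
    intro e
    exact Finset.mem_image.2 ⟨y, hy, rfl⟩
  have h1 : ∀ e : Fin d, (L.image (fun y => y e)).card ≤ m := by
    intro e
    rcases (L.image (fun y => y e)).eq_empty_or_nonempty with h0 | h0
    · rw [h0]; simp
    · have hne : ((L.image (fun y => y e)).image Fin.val).Nonempty := h0.image _
      set S := (L.image (fun y => y e)).image Fin.val with hS
      have hcard : S.card = (L.image (fun y => y e)).card :=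
        Finset.card_image_of_injective _ Fin.val_injective
      rw [← hcard]
      have hsub : S ⊆ Finset.Ico (S.min' hne) (S.min' hne + m) := by
        intro a ha
        rw [Finset.mem_Ico]
        refine ⟨Finset.min'_le _ _ ha, ?_⟩
        have hmin := Finset.min'_mem S hne
        rw [hS, Finset.mem_image] at ha
        obtain ⟨a', ha', rfl⟩ := ha
        obtain ⟨x, hx, rfl⟩ := Finset.mem_image.1 ha'
        have hmin2 : S.min' hne ∈ (L.image (fun y => y e)).image Fin.val := hmin
        obtain ⟨b', hb', hb⟩ := Finset.mem_image.1 hmin2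
        obtain ⟨y, hy, rfl⟩ := Finset.mem_image.1 hb'
        rw [← hb]
        exact h x hx y hy e
      calc S.card ≤ (Finset.Ico (S.min' hne) (S.min' hne + m)).card := Finset.card_le_card hsub
        _ = m := by rw [Nat.card_Ico]; omega
  calc L.card ≤ (Fintype.piFinset (fun e => L.image (fun y => y e))).card :=
        Finset.card_le_card hsub
    _ = ∏ e : Fin d, (L.image (fun y => y e)).card := Fintype.card_piFinset _
    _ ≤ ∏ _e : Fin d, m := Finset.prod_le_prod' (fun e _ => h1 e)
    _ = m ^ d := by rw [Finset.prod_const, Finset.card_univ, Fintype.card_fin]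

theorem cl_B0_dep {L T : Finset (Grid d n)} (h : ∀ y ∈ L, ∀ z ∈ nbrs y, z ∈ T) (s t : ℕ)
    (A : Finset (Grid d n)) : cl L s (B0 t A) = cl L s (B0 t (A ∩ T)) := by
  have key : ∀ y ∈ L, (nbrs y ∩ A = nbrs y ∩ (A ∩ T)) := by
    intro y hy
    ext z
    rw [Finset.mem_inter, Finset.mem_inter, Finset.mem_inter]
    constructor
    · rintro ⟨a, b⟩
      exact ⟨a, b, h y hy z a⟩
    · rintro ⟨a, b, _⟩
      exact ⟨a, b⟩
  apply Finset.Subset.antisymm
  · apply cl_mono (Finset.Subset.refl _) le_rfl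
    intro y hy hyB
    rw [mem_B0] at hyB ⊢
    rw [← key y hy]; exact hyB
  · apply cl_mono (Finset.Subset.refl _) le_rfl
    intro y hy hyB
    rw [mem_B0] at hyB ⊢
    rw [key y hy]; exact hyB

/-- recursion step -/
theorem recur {p : ℝ} (h0 : 0 ≤ p) (h1 : p ≤ 1) {s t m w k j : ℕ}
    (hgood : ∀ L : Finset (Grid d n), Small m L →
      Pr p (fun A => Ext (cl L s (B0 t A)) w) ≤ 1 / 4)
    (hw : 1 ≤ w) (hk : 1 ≤ k) (hj : j + 1 = (w + 3) * k) (hm : 2 * j + 1 ≤ m)
    (L' : Finset (Grid d n)) :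
    Pr p (fun A => Ext (cl L' (s + 1) (B0 t A)) j) ≤
      (L'.card : ℝ) * ((L'.card : ℝ) * ((d : ℝ) * (1 / 4) ^ k)) := by
  have hj1 : 1 ≤ j := by nlinarith
  set Ev : Grid d n → Grid d n → Fin d → ℕ → Finset (Grid d n) → Prop := fun x u e l A =>
    Ext (cl (L' ∩ ball x j ∩ slab e ((u e : ℕ) + l * (w + 3)) (w + 1)) s (B0 t A)) w with hEv
  have hsub : Pr p (fun A => Ext (cl L' (s + 1) (B0 t A)) j) ≤
      Pr p (fun A => ∃ x ∈ L', ∃ u ∈ L', ∃ e ∈ (Finset.univ : Finset (Fin d)),
        ∀ l, l < k → Ev x u e l A) := by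
    apply Pr_mono h0 h1
    intro A hA
    obtain ⟨x, hx, e, u, v, hc, huv⟩ := al hj1 hA
    have huL : u ∈ L' := (Finset.mem_inter.1 (cl_sub _ _ _ hc.left)).1
    refine ⟨x, hx, u, huL, e, Finset.mem_univ _, ?_⟩
    intro l hl
    rw [hEv]
    have hl2 : (l + 1) * (w + 3) ≤ k * (w + 3) := Nat.mul_le_mul_right _ (by omega)
    have hle : (u e : ℕ) + l * (w + 3) + w ≤ (v e : ℕ) := by nlinarith
    obtain ⟨u', v', hc', hu', hv'⟩ := crossing (a := (u e : ℕ) + l * (w + 3)) (w := w) hc
      (by omega) hle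
    have hc2 := hc'.mono (cl_slab (L := L' ∩ ball x j) (s := s) (B := B0 t A) (e := e)
      (a := (u e : ℕ) + l * (w + 3)) (w := w + 1) (by omega))
    exact ⟨e, u', v', hc2, by omega⟩
  have hone : ∀ x u e, Pr p (fun A => ∀ l, l < k → Ev x u e l A) ≤ (1 / 4) ^ k := by
    intro x u e
    apply Pr_prod_le h0 h1 (by norm_num)
      (fun l => Finset.univ.filter (fun y : Grid d n => (u e : ℕ) + l * (w + 3) ≤ (y e : ℕ) + 1 ∧
        (y e : ℕ) < (u e : ℕ) + l * (w + 3) + w + 2)) (Ev x u e) k
    · intro l _ A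
      have hcong := cl_B0_dep (L := L' ∩ ball x j ∩ slab e ((u e : ℕ) + l * (w + 3)) (w + 1))
        (T := Finset.univ.filter (fun y : Grid d n => (u e : ℕ) + l * (w + 3) ≤ (y e : ℕ) + 1 ∧
        (y e : ℕ) < (u e : ℕ) + l * (w + 3) + w + 2)) (by
          intro y hy z hz
          have hys := mem_slab.1 (Finset.mem_inter.1 hy).2
          have := (mem_nbrs.1 hz).coord_le e
          rw [Finset.mem_filter]
          exact ⟨Finset.mem_univ _, by omega, by omega⟩) s t A
      simp only [hEv]
      rw [hcong]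
    · intro l l' hll _
      rw [Finset.disjoint_left]
      intro y hy hy'
      rw [Finset.mem_filter] at hy hy'
      have hl2 : (l + 1) * (w + 3) ≤ l' * (w + 3) := Nat.mul_le_mul_right _ (by omega)
      have a1 := hy.2.2
      have a2 := hy'.2.1
      nlinarith
    · intro l _
      apply hgood
      intro y hy z hz e'
      have hy' := (Finset.mem_inter.1 (Finset.mem_inter.1 hy).1).2
      have hz' := (Finset.mem_inter.1 (Finset.mem_inter.1 hz).1).2
      unfold ball at hy' hz'
      have b1 := (Finset.mem_filter.1 hy').2 e'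
      have b2 := (Finset.mem_filter.1 hz').2 e'
      omega
  refine le_trans hsub ?_
  refine le_trans (Pr_bUnion_le h0 h1 L' (fun x A => ∃ u ∈ L', ∃ e ∈ (Finset.univ :
    Finset (Fin d)), ∀ l, l < k → Ev x u e l A)) ?_
  rw [← nsmul_eq_mul, ← Finset.sum_const]
  apply Finset.sum_le_sum
  intro x _
  refine le_trans (Pr_bUnion_le h0 h1 L' (fun u A => ∃ e ∈ (Finset.univ :
    Finset (Fin d)), ∀ l, l < k → Ev x u e l A)) ?_
  rw [← nsmul_eq_mul, ← Finset.sum_const]
  apply Finset.sum_le_sum
  intro u _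
  refine le_trans (Pr_bUnion_le h0 h1 Finset.univ (fun e A => ∀ l, l < k → Ev x u e l A)) ?_
  calc ∑ e : Fin d, Pr p (fun A => ∀ l, l < k → Ev x u e l A)
      ≤ ∑ _e : Fin d, (1 / 4 : ℝ) ^ k := Finset.sum_le_sum (fun e _ => hone x u e)
    _ = _ := by rw [Finset.sum_const, Finset.card_univ, Fintype.card_fin, nsmul_eq_mul]

/-- percolation of `A` at threshold `d` forces percolation of `B0` at threshold `s ≤ d - t` -/
theorem perc_B0 (hn : 2 ≤ n) {s t : ℕ} (hst : s + t ≤ d) {A : Finset (Grid d n)}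
    (hA : Percolates d A) : cl Finset.univ s (B0 t A) = Finset.univ := by
  set F := cl (Finset.univ : Finset (Grid d n)) s (B0 t A) with hF
  have hdis : ∀ (x : Grid d n) (X : Finset (Grid d n)), X \ A ⊆ F →
      d ≤ (nbrs x ∩ X).card → x ∈ F := by
    intro x X hX hcard
    have hsplit : (nbrs x ∩ X).card ≤ (nbrs x ∩ A).card + (nbrs x ∩ F).card := by
      refine le_trans (Finset.card_le_card ?_) (Finset.card_union_le _ _)
      intro z hz
      rw [Finset.mem_inter] at hz
      rw [Finset.mem_union, Finset.mem_inter, Finset.mem_inter]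
      by_cases h : z ∈ A
      · exact Or.inl ⟨hz.1, h⟩
      · exact Or.inr ⟨hz.1, hX (Finset.mem_sdiff.2 ⟨hz.2, h⟩)⟩
    rcases Nat.lt_or_ge (nbrs x ∩ A).card t with h | h
    · exact cl_step (Finset.mem_univ _) (by rw [← hF]; omega)
    · exact cl_base (Finset.mem_univ _) (mem_B0.2 h)
  have hstep : ∀ τ : ℕ, (step d)^[τ] A \ A ⊆ F := by
    intro τ
    induction τ with
    | zero =>
      intro x hx
      exact absurd (Finset.mem_sdiff.1 hx).1 (Finset.mem_sdiff.1 hx).2
    | succ τ ih =>
      intro x hx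
      rw [Finset.mem_sdiff, Function.iterate_succ_apply'] at hx
      obtain ⟨hx1, hx2⟩ := hx
      unfold step at hx1
      rcases Finset.mem_union.1 hx1 with h | h
      · exact ih (Finset.mem_sdiff.2 ⟨h, hx2⟩)
      · exact hdis x _ ih (Finset.mem_filter.1 h).2
  have hall : (Finset.univ : Finset (Grid d n)) \ A ⊆ F := by
    intro x hx
    obtain ⟨τ, hτ⟩ := hA x
    exact hstep τ (Finset.mem_sdiff.2 ⟨hτ, (Finset.mem_sdiff.1 hx).2⟩)
  apply Finset.eq_univ_of_forall
  intro x
  apply hdis x Finset.univ hall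
  rw [Finset.inter_univ]
  exact card_nbrs_ge hn x

/-- the whole grid has full extent -/
theorem univ_ext (hd : 1 ≤ d) {w : ℕ} (hw : w + 1 ≤ n) :
    Ext (Finset.univ : Finset (Grid d n)) w := by
  have hn : 0 < n := by omega
  have hpath : ∀ i (hi : i < n), Conn (Finset.univ : Finset (Grid d n))
      (Function.update (fun _ => ⟨0, hn⟩) ⟨0, hd⟩ ⟨0, hn⟩)
      (Function.update (fun _ => ⟨0, hn⟩) ⟨0, hd⟩ ⟨i, hi⟩) := by
    intro i
    induction i with
    | zero => intro hi; exact Conn.refl (Finset.mem_univ _)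
    | succ i ih =>
      intro hi
      refine (ih (by omega)).trans (Conn.adj (Finset.mem_univ _) (Finset.mem_univ _) ?_)
      refine ⟨⟨0, hd⟩, ?_, ?_⟩
      · simp only [Function.update_self]
        left; trivial
      · intro e' he'
        rw [Function.update_of_ne he', Function.update_of_ne he']
  refine ⟨⟨0, hd⟩, _, _, hpath w (by omega), ?_⟩
  simp only [Function.update_self]
  omega

end Pool.Agent.Helper91.BP
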