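import Pool.Agent.Helper91.BP.Grow
import Pool.Agent.Helper91.BP.Low

/-! The upper bound. -/

namespace Pool.Agent.Helper91.BP
open Finset Classical

set_option linter.unusedSectionVars false
variable {d n : ℕ}

theorem wd_le {J : Finset (Fin d)} {l : ℕ} (hl : 1 ≤ l) (e : Fin d) : wd J l e ≤ l := by
  unfold wd
  split_ifs <;> omega

theorem wd_mono {J : Finset (Fin d)} {l l' : ℕ} (h : l ≤ l') (e : Fin d) :
    wd J l e ≤ wd J l' e := by
  unfold wd
  split_ifs <;> omega

theorem card_cube {J : Finset (Fin d)} {c : Fin d → ℕ} {l : ℕ} (hl : 1 ≤ l) :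
    (cube J c l : Finset (Grid d n)).card ≤ l ^ d := by
  apply Small.card
  intro x hx y hy e
  have a1 := mem_cube.1 hx e
  have a2 := mem_cube.1 hy e
  have a3 := wd_le (J := J) hl e
  omega

theorem Span.dep (J : Finset (Fin d)) (c : Fin d → ℕ) (l : ℕ) :
    Dep (cube J c l) (fun A : Finset (Grid d n) => ¬ Span J c l A) := by
  intro A
  simp only [Span]
  rw [cl_dep]

/-- the inductive statement -/
def U (d n b K k : ℕ) : Prop :=
  ∀ J : Finset (Fin d), J.card = k → ∀ (c : Fin d → ℕ) (a : ℕ), b ≤ a →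
    (∀ e, c e + wd J (2 ^ a) e ≤ n) →
    Pr (1 / 4) (fun A : Finset (Grid d n) => ¬ Span J c (2 ^ a) A) ≤ (1 / 2) ^ (K * a)

theorem U_zero (d n b K : ℕ) : U d n b K 0 := by
  intro J hJ c a _ _
  rw [Pr_false]
  · positivity
  · intro A h
    apply h
    intro y hy
    rw [hJ]
    exact cl_step hy (Nat.zero_le _)

theorem faces_prob {b K k : ℕ} (hU : U d n b K k) {J : Finset (Fin d)} (hJ : J.card = k + 1)
    {c : Fin d → ℕ} {m i : ℕ} (hi : b ≤ i) (hfit : ∀ e, c e + wd J (2 ^ m) e ≤ n) :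
    Pr (1 / 4) (fun A : Finset (Grid d n) => ¬ Faces J c (2 ^ m) (2 ^ i) A) ≤
      (d : ℝ) * ((2 ^ m) ^ d * (1 / 2) ^ (K * i)) := by
  have h0 : (0 : ℝ) ≤ 1 / 4 := by norm_num
  have h1 : (1 / 4 : ℝ) ≤ 1 := by norm_num
  have hsub : Pr (1 / 4) (fun A : Finset (Grid d n) => ¬ Faces J c (2 ^ m) (2 ^ i) A) ≤
      Pr (1 / 4) (fun A : Finset (Grid d n) => ∃ e ∈ J, ∃ y ∈ (cube J c (2 ^ m) :
        Finset (Grid d n)), ((∀ e', c e' ≤ (y e' : ℕ) ∧
          (y e' : ℕ) + wd (J.erase e) (2 ^ i) e' ≤ c e' + wd J (2 ^ m) e') ∧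
        ¬ Span (J.erase e) (fun e' => (y e' : ℕ)) (2 ^ i) A)) := by
    apply Pr_mono h0 h1
    intro A hA
    unfold Faces at hA
    push Not at hA
    obtain ⟨e, he, y, hy, hns⟩ := hA
    refine ⟨e, he, y, ?_, hy, hns⟩
    rw [mem_cube]
    intro e'
    have a1 := hy e'
    have a2 := wd_pos (J := J.erase e) (l := 2 ^ i) Nat.one_le_two_pow e'
    omega
  refine le_trans hsub ?_
  refine le_trans (Pr_bUnion_le h0 h1 J (fun e A => ∃ y ∈ (cube J c (2 ^ m) :
        Finset (Grid d n)), ((∀ e', c e' ≤ (y e' : ℕ) ∧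
          (y e' : ℕ) + wd (J.erase e) (2 ^ i) e' ≤ c e' + wd J (2 ^ m) e') ∧
        ¬ Span (J.erase e) (fun e' => (y e' : ℕ)) (2 ^ i) A))) ?_
  have hJd : (J.card : ℝ) ≤ (d : ℝ) := by
    have := Finset.card_le_univ J
    rw [Fintype.card_fin] at this
    exact_mod_cast this
  calc _ ≤ ∑ _e ∈ J, ((2 ^ m) ^ d * (1 / 2 : ℝ) ^ (K * i)) := by
        apply Finset.sum_le_sum
        intro e he
        refine le_trans (Pr_bUnion_le h0 h1 (cube J c (2 ^ m) : Finset (Grid d n))
          (fun y A => ((∀ e', c e' ≤ (y e' : ℕ) ∧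
          (y e' : ℕ) + wd (J.erase e) (2 ^ i) e' ≤ c e' + wd J (2 ^ m) e') ∧
          ¬ Span (J.erase e) (fun e' => (y e' : ℕ)) (2 ^ i) A))) ?_
        calc _ ≤ ∑ _y ∈ (cube J c (2 ^ m) : Finset (Grid d n)), (1 / 2 : ℝ) ^ (K * i) := by
              apply Finset.sum_le_sum
              intro y _
              by_cases hy : ∀ e', c e' ≤ (y e' : ℕ) ∧
                (y e' : ℕ) + wd (J.erase e) (2 ^ i) e' ≤ c e' + wd J (2 ^ m) e'
              · refine le_trans (Pr_mono h0 h1 (F := fun A : Finset (Grid d n) =>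
                  ¬ Span (J.erase e) (fun e' => (y e' : ℕ)) (2 ^ i) A) (fun A h => h.2)) ?_
                apply hU (J.erase e) _ (fun e' => (y e' : ℕ)) i hi
                · intro e'
                  have a1 := hy e'
                  have a2 := hfit e'
                  omega
                · rw [Finset.card_erase_of_mem he, hJ]; rfl
              · rw [Pr_false]
                · positivity
                · intro A h
                  exact hy h.1
          _ = ((cube J c (2 ^ m) : Finset (Grid d n)).card : ℝ) * (1 / 2 : ℝ) ^ (K * i) := by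
              rw [Finset.sum_const, nsmul_eq_mul]
          _ ≤ _ := by
              apply mul_le_mul_of_nonneg_right _ (by positivity)
              have := card_cube (n := n) (J := J) (c := c) (l := 2 ^ m) Nat.one_le_two_pow
              exact_mod_cast this
    _ = (J.card : ℝ) * ((2 ^ m) ^ d * (1 / 2 : ℝ) ^ (K * i)) := by
        rw [Finset.sum_const, nsmul_eq_mul]
    _ ≤ _ := by
        apply mul_le_mul_of_nonneg_right hJd (by positivity)

theorem geom_le (b m : ℕ) : ∑ i ∈ Finset.range m, (1 / 2 : ℝ) ^ (b + i + 1) ≤ (1 / 2) ^ b -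
    (1 / 2) ^ (b + m) := by
  induction m with
  | zero => simp
  | succ m ih =>
    rw [Finset.sum_range_succ]
    have : (1 / 2 : ℝ) ^ (b + m + 1) = (1 / 2) ^ (b + m) / 2 := by rw [pow_succ]; ring
    have e2 : b + (m + 1) = b + m + 1 := by ring
    rw [e2, this]
    linarith

theorem nat_le_two_pow (d : ℕ) : (d : ℝ) ≤ 2 ^ d := by
  exact_mod_cast (Nat.lt_two_pow_self (n := d)).le

theorem half_pow (m : ℕ) : (1 / 2 : ℝ) ^ m = 1 / 2 ^ m := by
  rw [div_pow, one_pow]

/-- bound of the form d·2^x·2^{-y} ≤ 2^{-z} -/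
theorem pow_bound {d x y z : ℕ} (h : d + x + z ≤ y) :
    (d : ℝ) * (2 ^ x * (1 / 2) ^ y) ≤ (1 / 2) ^ z := by
  have h1 : (1 / 2 : ℝ) ^ y = (1 / 2) ^ (y - (d + x + z)) * ((1 / 2) ^ d * ((1 / 2) ^ x *
      (1 / 2) ^ z)) := by
    rw [← pow_add, ← pow_add, ← pow_add]
    congr 1
    omega
  have h2 : (1 / 2 : ℝ) ^ (y - (d + x + z)) ≤ 1 := pow_le_one₀ (by norm_num) (by norm_num)
  have h3 : (d : ℝ) * (1 / 2) ^ d ≤ 1 := by
    rw [half_pow]
    have := nat_le_two_pow d
    rw [mul_one_div, div_le_one (by positivity)]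
    exact this
  have h4 : (2 : ℝ) ^ x * (1 / 2) ^ x = 1 := by
    rw [← mul_pow]; norm_num
  have h5 : 0 < (1 / 2 : ℝ) ^ z := by positivity
  have h6 : 0 ≤ (d : ℝ) * (1 / 2) ^ d := by positivity
  calc (d : ℝ) * (2 ^ x * (1 / 2) ^ y)
      = (1 / 2 : ℝ) ^ (y - (d + x + z)) * ((d : ℝ) * (1 / 2) ^ d) * (2 ^ x * (1 / 2) ^ x) *
        (1 / 2) ^ z := by rw [h1]; ring
    _ = (1 / 2 : ℝ) ^ (y - (d + x + z)) * ((d : ℝ) * (1 / 2) ^ d) * (1 / 2) ^ z := by
        rw [h4, mul_one]
    _ ≤ 1 * 1 * (1 / 2) ^ z := by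
        apply mul_le_mul_of_nonneg_right _ h5.le
        exact mul_le_mul h2 h3 h6 (by norm_num)
    _ = _ := by ring

/-- probability that a cube is spanned from its corner -/
theorem corner_prob {b K k : ℕ} (hU : U d n b K k) (hb : 1 ≤ b) (hd : 1 ≤ d)
    (hK : 3 * d + 2 ≤ K) {J : Finset (Fin d)} (hJ : J.card = k + 1)
    {c : Fin d → ℕ} {a : ℕ} (ha : b ≤ a) (hfit : ∀ e, c e + wd J (2 ^ a) e ≤ n) :
    Pr (1 / 4) (fun A : Finset (Grid d n) => ¬ Span J c (2 ^ a) A) ≤
      1 - (1 / 4) ^ ((2 ^ b) ^ d) / 2 := by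
  have h0 : (0 : ℝ) ≤ 1 / 4 := by norm_num
  have h1 : (1 / 4 : ℝ) ≤ 1 := by norm_num
  set S : Finset (Grid d n) := cube J c (2 ^ b) with hS
  set E2 : Finset (Grid d n) → Prop := fun A => ∀ i, b ≤ i → i < a →
    Faces J c (2 ^ (i + 1)) (2 ^ i) A with hE2
  have hdet : ∀ A : Finset (Grid d n), S ⊆ A → E2 A → Span J c (2 ^ a) A := by
    intro A hA hE
    have key : ∀ i, b ≤ i → i ≤ a → Span J c (2 ^ i) A := by
      intro i hi
      induction i, hi using Nat.le_induction with
      | base =>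
        intro _ y hy
        exact cl_base hy (hA hy)
      | succ i hi ih =>
        intro hia
        apply span_of_sub (c0 := c) Nat.one_le_two_pow _ (hE i hi (by omega)) (fun e => le_refl _) _
          (ih (by omega))
        · intro e
          have := wd_mono (J := J) (Nat.pow_le_pow_right (show 0 < 2 by norm_num) hia) e
          have := hfit e
          omega
        · intro e
          have := wd_mono (J := J) (Nat.pow_le_pow_right (show 0 < 2 by norm_num)
            (Nat.le_succ i)) e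
          have e2 : wd J (2 ^ i.succ) e = wd J (2 ^ (i + 1)) e := rfl
          omega
    exact key a ha le_rfl
  have hnE2 : Pr (1 / 4) (fun A => ¬ E2 A) ≤ 1 / 2 := by
    have hsub : Pr (1 / 4) (fun A => ¬ E2 A) ≤
        Pr (1 / 4) (fun A : Finset (Grid d n) => ∃ i ∈ Finset.range (a - b),
        ¬ Faces J c (2 ^ (b + i + 1)) (2 ^ (b + i)) A) := by
      apply Pr_mono h0 h1
      intro A hA
      simp only [hE2] at hA
      push Not at hA
      obtain ⟨i, hi1, hi2, hi3⟩ := hA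
      refine ⟨i - b, Finset.mem_range.2 (by omega), ?_⟩
      rw [show b + (i - b) = i by omega]
      exact hi3
    refine le_trans hsub ?_
    refine le_trans (Pr_bUnion_le h0 h1 (Finset.range (a - b))
      (fun i A => ¬ Faces J c (2 ^ (b + i + 1)) (2 ^ (b + i)) A)) ?_
    calc _ ≤ ∑ i ∈ Finset.range (a - b), (1 / 2 : ℝ) ^ (b + i + 1) := by
          apply Finset.sum_le_sum
          intro i hi
          have hi' := Finset.mem_range.1 hi
          refine le_trans (faces_prob hU hJ (m := b + i + 1) (i := b + i) (by omega) ?_) ?_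
          · intro e
            have := wd_mono (J := J) (Nat.pow_le_pow_right (show 0 < 2 by norm_num)
              (show b + i + 1 ≤ a by omega)) e
            have := hfit e
            omega
          · rw [← pow_mul]
            apply pow_bound
            have hbi : 1 ≤ b + i := by omega
            nlinarith
      _ ≤ (1 / 2) ^ b - (1 / 2) ^ (b + (a - b)) := geom_le b (a - b)
      _ ≤ (1 / 2) ^ b := by
          have : 0 < (1 / 2 : ℝ) ^ (b + (a - b)) := by positivity
          linarith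
      _ ≤ (1 / 2) ^ 1 := pow_le_pow_of_le_one (by norm_num) (by norm_num) hb
      _ = 1 / 2 := by norm_num
  have hE2p : 1 / 2 ≤ Pr (1 / 4) E2 := by
    rw [Pr_not] at hnE2
    have : Pr (1 / 4) (fun A => E2 A) = Pr (1 / 4) E2 := rfl
    linarith
  have hE2' : 1 / 2 ≤ Pr (1 / 4) (fun A => E2 (A ∪ S)) := by
    refine le_trans hE2p (Pr_mono h0 h1 ?_)
    intro A hA i hi1 hi2
    exact (hA i hi1 hi2).mono Finset.subset_union_left
  have hd1 : Dep S (fun A : Finset (Grid d n) => S ⊆ A) := by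
    intro A
    constructor
    · intro h x hx
      exact Finset.mem_inter.2 ⟨h hx, hx⟩
    · intro h x hx
      exact (Finset.mem_inter.1 (h hx)).1
  have hd2 : Dep Sᶜ (fun A : Finset (Grid d n) => E2 (A ∪ S)) := by
    intro A
    have : A ∩ Sᶜ ∪ S = A ∪ S := by
      ext x
      simp only [Finset.mem_union, Finset.mem_inter, Finset.mem_compl]
      tauto
    simp only [this]
  have hind := Pr_indep (1 / 4) hd1 hd2 (by
    rw [Finset.disjoint_left]
    intro x hx hx'
    exact (Finset.mem_compl.1 hx') hx)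
  have hspan : Pr (1 / 4) (fun A => S ⊆ A ∧ E2 (A ∪ S)) ≤
      Pr (1 / 4) (fun A : Finset (Grid d n) => Span J c (2 ^ a) A) := by
    apply Pr_mono h0 h1
    rintro A ⟨hA1, hA2⟩
    apply hdet A hA1
    rw [Finset.union_eq_left.2 hA1] at hA2
    exact hA2
  rw [hind, Pr_subset] at hspan
  rw [Pr_not]
  have hScard : (1 / 4 : ℝ) ^ ((2 ^ b) ^ d) ≤ (1 / 4) ^ S.card := by
    apply pow_le_pow_of_le_one (by norm_num) (by norm_num)
    exact card_cube Nat.one_le_two_pow
  have hpos : (0 : ℝ) < (1 / 4) ^ ((2 ^ b) ^ d) := by positivity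
  have : (1 / 4 : ℝ) ^ ((2 ^ b) ^ d) / 2 ≤ (1 / 4) ^ S.card * Pr (1 / 4) (fun A => E2 (A ∪ S)) := by
    have e1 : (1 / 4 : ℝ) ^ ((2 ^ b) ^ d) / 2 = (1 / 4) ^ ((2 ^ b) ^ d) * (1 / 2) := by ring
    rw [e1]
    exact mul_le_mul hScard hE2' (by norm_num) (by positivity)
  linarith

/-- the two-scale estimate -/
theorem two_scale {b K k : ℕ} (hU : U d n b K k) (hb : 1 ≤ b) (hd : 1 ≤ d)
    (hK : 3 * d + 2 ≤ K) {J : Finset (Fin d)} (hJ : J.card = k + 1)
    {c : Fin d → ℕ} {a a' : ℕ} (ha' : b ≤ a') (haa : a' ≤ a)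
    (hfit : ∀ e, c e + wd J (2 ^ a) e ≤ n) :
    Pr (1 / 4) (fun A : Finset (Grid d n) => ¬ Span J c (2 ^ a) A) ≤
      (d : ℝ) * ((2 ^ a) ^ d * (1 / 2) ^ (K * a')) +
      (1 - (1 / 4) ^ ((2 ^ b) ^ d) / 2) ^ (2 ^ (a - a')) := by
  have h0 : (0 : ℝ) ≤ 1 / 4 := by norm_num
  have h1 : (1 / 4 : ℝ) ≤ 1 := by norm_num
  obtain ⟨e0, he0⟩ : J.Nonempty := by
    rw [← Finset.card_pos, hJ]; omega
  set ch : ℕ → Fin d → ℕ := fun h => Function.update c e0 (c e0 + h * 2 ^ a') with hch
  have hM : 2 ^ (a - a') * 2 ^ a' = 2 ^ a := by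
    rw [← pow_add]; congr 1; omega
  have hpos : 1 ≤ 2 ^ a' := Nat.one_le_two_pow
  have hin : ∀ h, h < 2 ^ (a - a') → ∀ e, c e ≤ ch h e ∧
      ch h e + wd J (2 ^ a') e ≤ c e + wd J (2 ^ a) e := by
    intro h hh e
    by_cases he : e = e0
    · subst he
      simp only [hch, Function.update_self]
      rw [wd_mem he0, wd_mem he0]
      have : (h + 1) * 2 ^ a' ≤ 2 ^ (a - a') * 2 ^ a' := Nat.mul_le_mul_right _ hh
      rw [hM] at this
      constructor
      · omega
      · nlinarith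
    · simp only [hch, Function.update_of_ne he]
      have := wd_mono (J := J) (Nat.pow_le_pow_right (show 0 < 2 by norm_num) haa) e
      omega
  have hsub : Pr (1 / 4) (fun A : Finset (Grid d n) => ¬ Span J c (2 ^ a) A) ≤
      Pr (1 / 4) (fun A : Finset (Grid d n) => ¬ Faces J c (2 ^ a) (2 ^ a') A ∨
        ∀ h, h < 2 ^ (a - a') → ¬ Span J (ch h) (2 ^ a') A) := by
    apply Pr_mono h0 h1
    intro A hA
    by_contra hcon
    push Not at hcon
    obtain ⟨hf, h, hh, hs⟩ := hcon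
    apply hA
    exact span_of_sub hpos hfit hf (fun e => (hin h hh e).1) (fun e => (hin h hh e).2) hs
  refine le_trans hsub (le_trans (Pr_or_le h0 h1 _ _) ?_)
  apply add_le_add
  · exact faces_prob hU hJ ha' hfit
  · apply Pr_prod_le h0 h1 (T := fun h => cube J (ch h) (2 ^ a'))
      (E := fun h A => ¬ Span J (ch h) (2 ^ a') A)
    · have : (1 / 4 : ℝ) ^ ((2 ^ b) ^ d) ≤ 1 := pow_le_one₀ (by norm_num) (by norm_num)
      linarith
    · intro h _
      exact Span.dep J (ch h) (2 ^ a')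
    · intro h h' hlt _
      rw [Finset.disjoint_left]
      intro y hy hy'
      have a1 := mem_cube.1 hy e0
      have a2 := mem_cube.1 hy' e0
      simp only [hch, Function.update_self] at a1 a2
      rw [wd_mem he0] at a1 a2
      have : (h + 1) * 2 ^ a' ≤ h' * 2 ^ a' := Nat.mul_le_mul_right _ hlt
      nlinarith
    · intro h hh
      apply corner_prob hU hb hd hK hJ ha'
      intro e
      have a1 := (hin h hh e).2
      have a2 := hfit e
      omega

theorem lin_le_pow (z : ℕ) (hz : 8 ≤ z) : 8 * z + 8 ≤ 2 ^ z := by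
  induction z, hz using Nat.le_induction with
  | base => norm_num
  | succ z hz ih =>
    rw [pow_succ]
    omega

theorem sixteen_pow (d : ℕ) (hd : 2 ≤ d) : 24 * d + 64 ≤ 16 ^ d := by
  induction d, hd using Nat.le_induction with
  | base => norm_num
  | succ d hd ih =>
    rw [pow_succ]
    omega

theorem exp_half (x : ℕ) : Real.exp (-(x : ℝ)) ≤ (1 / 2) ^ x := by
  have h := Real.add_one_le_exp (1 : ℝ)
  have h2 : Real.exp (-1) ≤ 1 / 2 := by
    rw [Real.exp_neg, inv_eq_one_div]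
    exact one_div_le_one_div_of_le (by norm_num) (by linarith)
  have h3 : Real.exp (-(x : ℝ)) = Real.exp (-1) ^ x := by
    rw [← Real.exp_nat_mul]
    congr 1
    ring
  rw [h3]
  exact pow_le_pow_left₀ (Real.exp_pos _).le h2 x

/-- the step -/
theorem U_step {b K' k : ℕ} (hd : 2 ≤ d) (hb : 1 ≤ b) (hK1 : 16 * d ≤ K')
    (hK2 : K' ≤ 2 ^ (3 * d + 4)) (hU : U d n b (4 * K') k) : U d n (2 ^ (4 * d * b)) K' (k + 1) := by
  intro J hJ c a ha hfit
  set S := (2 ^ b) ^ d with hS
  have hS4 : S ^ 4 = 2 ^ (4 * d * b) := by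
    rw [hS, ← pow_mul, ← pow_mul]
    congr 1
    ring
  have hSge : 4 ≤ S := by
    rw [hS, ← pow_mul]
    calc 4 = 2 ^ 2 := by norm_num
      _ ≤ 2 ^ (b * d) := Nat.pow_le_pow_right (by norm_num) (by nlinarith)
  have hSa : S ^ 4 ≤ a := by rw [hS4]; exact ha
  have hSb : b ≤ S := by
    rw [hS, ← pow_mul]
    have h1 : b < 2 ^ b := Nat.lt_two_pow_self
    have h2 : 2 ^ b ≤ 2 ^ (b * d) := Nat.pow_le_pow_right (by norm_num) (by nlinarith)
    omega
  have hS3 : 64 * S ≤ S ^ 4 := by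
    have : 4 ^ 3 ≤ S ^ 3 := Nat.pow_le_pow_left hSge 3
    calc 64 * S = 4 ^ 3 * S := by norm_num
      _ ≤ S ^ 3 * S := Nat.mul_le_mul_right _ this
      _ = S ^ 4 := by ring
  have ha64 : 24 * d + 64 ≤ a := by
    have h1 := sixteen_pow d hd
    have h2 : 16 ^ d ≤ 2 ^ (4 * d * b) := by
      calc 16 ^ d = 2 ^ (4 * d) := by rw [pow_mul]; norm_num
        _ ≤ 2 ^ (4 * d * b) := Nat.pow_le_pow_right (by norm_num) (by nlinarith)
    omega
  have hts := two_scale hU hb (by omega) (by omega) hJ (a := a) (a' := a / 2) (by omega) (by omega)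
    hfit
  refine le_trans hts ?_
  have hhalf : (1 / 2 : ℝ) ^ (K' * a) = (1 / 2) ^ (K' * a + 1) + (1 / 2) ^ (K' * a + 1) := by
    rw [pow_succ]; ring
  rw [hhalf]
  apply add_le_add
  · rw [← pow_mul]
    apply pow_bound
    have h3 : a ≤ 3 * (a / 2) := by omega
    have h4 : K' * a ≤ K' * (3 * (a / 2)) := Nat.mul_le_mul_left _ h3
    have h5 : 16 * d * (a / 2) ≤ K' * (a / 2) := Nat.mul_le_mul_right _ hK1
    have h6 : a * d ≤ (3 * (a / 2)) * d := Nat.mul_le_mul_right _ h3
    have h7 : 1 ≤ a / 2 := by omega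
    have h8 : d ≤ d * (a / 2) := by nlinarith
    nlinarith
  · have hKa : K' * a + 1 ≤ 2 ^ (a / 8) * 2 ^ (a / 8) := by
      have h1 : K' ≤ 2 ^ (a / 8) := le_trans hK2 (Nat.pow_le_pow_right (by norm_num) (by omega))
      have h2 : a + 1 ≤ 2 ^ (a / 8) := by
        have := lin_le_pow (a / 8) (by omega)
        omega
      calc K' * a + 1 ≤ K' * (a + 1) := by nlinarith
        _ ≤ _ := Nat.mul_le_mul h1 h2
    have hM : (2 * 4 ^ S) * (K' * a + 1) ≤ 2 ^ (a - a / 2) := by
      calc (2 * 4 ^ S) * (K' * a + 1) ≤ (2 * 4 ^ S) * (2 ^ (a / 8) * 2 ^ (a / 8)) :=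
            Nat.mul_le_mul_left _ hKa
        _ = 2 ^ (1 + 2 * S + (a / 8 + a / 8)) := by
            rw [pow_add, pow_add, pow_add, pow_mul]; norm_num
        _ ≤ 2 ^ (a - a / 2) := Nat.pow_le_pow_right (by norm_num) (by omega)
    have hMR : (2 * 4 ^ S : ℝ) * ((K' * a + 1 : ℕ) : ℝ) ≤ ((2 ^ (a - a / 2) : ℕ) : ℝ) := by
      exact_mod_cast hM
    set δ : ℝ := (1 / 4) ^ S / 2 with hδ
    have hδ' : δ = 1 / (2 * 4 ^ S) := by
      rw [hδ, div_pow, one_pow]
      field_simp
    have h4S : (0 : ℝ) < 2 * 4 ^ S := by positivity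
    have hδM : ((K' * a + 1 : ℕ) : ℝ) ≤ δ * ((2 ^ (a - a / 2) : ℕ) : ℝ) := by
      rw [hδ', one_div, inv_mul_eq_div, le_div_iff₀ h4S]
      linarith
    have hδ1 : 0 ≤ 1 - δ := by
      rw [hδ]
      have : (1 / 4 : ℝ) ^ S ≤ 1 := pow_le_one₀ (by norm_num) (by norm_num)
      linarith
    calc (1 - δ) ^ (2 ^ (a - a / 2)) ≤ (Real.exp (-δ)) ^ (2 ^ (a - a / 2)) := by
          apply pow_le_pow_left₀ hδ1
          have := Real.add_one_le_exp (-δ)
          linarith
      _ = Real.exp (((2 ^ (a - a / 2) : ℕ) : ℝ) * (-δ)) := by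
          rw [← Real.exp_nat_mul]
      _ ≤ Real.exp (-((K' * a + 1 : ℕ) : ℝ)) := by
          apply Real.exp_le_exp.2
          linarith
      _ ≤ _ := exp_half _

/-- scales -/
def sc (d : ℕ) : ℕ → ℕ
  | 0 => 1
  | k + 1 => 2 ^ (4 * d * sc d k)

theorem sc_pos (d k : ℕ) : 1 ≤ sc d k := by
  cases k with
  | zero => exact le_refl _
  | succ k => exact Nat.one_le_two_pow

theorem U_all (hd : 2 ≤ d) (k : ℕ) (hk : k ≤ d) : U d n (sc d k) (16 * d * 4 ^ (d - k)) k := by
  induction k with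
  | zero => exact U_zero _ _ _ _
  | succ k ih =>
    have h := ih (by omega)
    have he : 16 * d * 4 ^ (d - k) = 4 * (16 * d * 4 ^ (d - (k + 1))) := by
      rw [show d - k = (d - (k + 1)) + 1 by omega, pow_succ]
      ring
    rw [he] at h
    apply U_step hd (sc_pos d k) _ _ h
    · have : 1 ≤ 4 ^ (d - (k + 1)) := Nat.one_le_pow _ _ (by norm_num)
      nlinarith
    · calc 16 * d * 4 ^ (d - (k + 1)) ≤ 16 * 2 ^ d * 4 ^ d := by
            apply Nat.mul_le_mul
            · exact Nat.mul_le_mul_left _ (Nat.lt_two_pow_self).le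
            · exact Nat.pow_le_pow_right (by norm_num) (by omega)
        _ = 2 ^ (3 * d + 4) := by
            rw [show (16 : ℕ) = 2 ^ 4 by norm_num, show (4 : ℕ) = 2 ^ 2 by norm_num, ← pow_mul,
              ← pow_add, ← pow_add]
            congr 1
            ring

theorem perc_prob (hd : 2 ≤ d) :
    1 / 2 ≤ Pr (1 / 4) (fun A : Finset (Grid d (2 ^ sc d d)) => Percolates d A) := by
  have h0 : (0 : ℝ) ≤ 1 / 4 := by norm_num
  have h1 : (1 / 4 : ℝ) ≤ 1 := by norm_num
  have hU := U_all (n := 2 ^ sc d d) hd d le_rfl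
  have h := hU Finset.univ (by rw [Finset.card_univ, Fintype.card_fin]) (fun _ => 0) (sc d d) le_rfl
    (by
      intro e
      rw [wd_mem (Finset.mem_univ e)]
      omega)
  rw [Pr_not] at h
  have hle : Pr (1 / 4) (fun A : Finset (Grid d (2 ^ sc d d)) =>
      Span Finset.univ (fun _ => 0) (2 ^ sc d d) A) ≤
      Pr (1 / 4) (fun A : Finset (Grid d (2 ^ sc d d)) => Percolates d A) := by
    apply Pr_mono h0 h1
    intro A hA
    rw [perc_iff]
    have hc : (cube Finset.univ (fun _ => 0) (2 ^ sc d d) : Finset (Grid d (2 ^ sc d d))) =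
        Finset.univ := by
      apply Finset.eq_univ_of_forall
      intro y
      rw [mem_cube]
      intro e
      rw [wd_mem (Finset.mem_univ e)]
      have := (y e).2
      omega
    unfold Span at hA
    rw [hc, Finset.card_univ, Fintype.card_fin] at hA
    exact Finset.Subset.antisymm (Finset.subset_univ _) hA
  have hpow : (1 / 2 : ℝ) ^ (16 * d * 4 ^ (d - d) * sc d d) ≤ (1 / 2) ^ 1 := by
    apply pow_le_pow_of_le_one (by norm_num) (by norm_num)
    have a1 := sc_pos d d
    have a2 : 1 ≤ 16 * d * 4 ^ (d - d) := by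
      rw [Nat.sub_self, pow_zero]; omega
    nlinarith
  rw [pow_one] at hpow
  linarith

theorem sq_le_pow (x : ℕ) (hx : 4 ≤ x) : x * x ≤ 2 ^ x := by
  induction x, hx using Nat.le_induction with
  | base => norm_num
  | succ x hx ih =>
    rw [pow_succ]
    nlinarith

theorem two_pow_le_T (k : ℕ) : 2 ^ k ≤ T (k + 1) := by
  simp only [T]
  apply Nat.pow_le_pow_right (by norm_num)
  induction k with
  | zero => exact Nat.zero_le _
  | succ k ih =>
    have := T_lt k
    omega

theorem sc_le (hd : 8 ≤ d) (k : ℕ) : sc d k ≤ T (2 * k + d) := by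
  induction k with
  | zero => exact T_pos _
  | succ k ih =>
    have h1 : 2 ^ (d - 1) ≤ T d := by
      have := two_pow_le_T (d - 1)
      rw [show d - 1 + 1 = d by omega] at this
      exact this
    have h2 : 4 * d ≤ 2 ^ (d - 1) := by
      have : ∀ m, 8 ≤ m → 4 * m ≤ 2 ^ (m - 1) := by
        intro m hm
        induction m, hm using Nat.le_induction with
        | base => norm_num
        | succ m hm ih =>
          rw [show m + 1 - 1 = (m - 1) + 1 by omega, pow_succ]
          omega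
      exact this d hd
    have h3 : T d ≤ T (2 * k + d) := T_mono (by omega)
    have h4 : 4 ≤ T (2 * k + d) := by omega
    show 2 ^ (4 * d * sc d k) ≤ T (2 * (k + 1) + d)
    have e1 : T (2 * (k + 1) + d) = 2 ^ (2 ^ T (2 * k + d)) := by
      rw [show 2 * (k + 1) + d = (2 * k + d) + 1 + 1 by ring]
      rfl
    rw [e1]
    apply Nat.pow_le_pow_right (by norm_num)
    calc 4 * d * sc d k ≤ T (2 * k + d) * T (2 * k + d) :=
          Nat.mul_le_mul (by omega) ih
      _ ≤ _ := sq_le_pow _ h4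

end Pool.Agent.Helper91.BP
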